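import Pool.Agent.H55.GW.Targets1

/-!
# ARC: boundedly many arcs from `H \ G` to `G` in minimal rigs
-/

set_option autoImplicit false

namespace Pool.Agent.H62.GW

open Pool.Agent.H55.GW Pool.Agent.H55.GW.Frame

section walks

variable (D : Vx → Vx → Prop) (Arcs : Set (ℕ × ℕ)) (A : Set (ℕ × ℕ))

/-- the arcs of `D` except those of `Arcs` outside `A` -/
def DA (a b : Vx) : Prop := D a b ∧ ∀ p ∈ Arcs, p ∉ A → ¬ (a = Sum.inr p.1 ∧ b = Sum.inr p.2)

/-- walk from `u` to `v` with inner vertices in `S` -/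
def Wk (D : Vx → Vx → Prop) (S : Set Vx) (u v : Vx) : Prop :=
  ∃ a b, D u a ∧ RIn D S a b ∧ D b v

end walks

/-- the set of arcs from `H \ G` to `G` -/
def arcs (F : Frame) (m : ℕ → Vx) (G H : Set ℕ) : Set (ℕ × ℕ) :=
  {p : ℕ × ℕ | F.adj p.1 p.2 ∧ m p.1 ≠ Sum.inr p.2 ∧ p.1 ∈ H ∧ p.1 ∉ G ∧ p.2 ∈ G}

lemma arcs_finite (F : Frame) (m : ℕ → Vx) (G H : Set ℕ) : (arcs F m G H).Finite := by
  apply Set.Finite.subset ((F.V ×ˢ F.V).finite_toSet)
  intro p hp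
  have h1 := hp.1
  rw [Finset.mem_coe, Finset.mem_product]
  exact ⟨adj_left h1, adj_right h1⟩

section

variable {F : Frame} {m : ℕ → Vx} {T : Finset ℕ} {G H : Set ℕ}

/-- walks in `H` starting in `G` stay in `G` and use none of the arcs -/
lemma walk_G (S : Set Vx) (hS : S ⊆ Sum.inr '' H) (hHT : ∀ v ∈ H, v ∉ T)
    (hout : ∀ u ∈ G, ∀ y, F.D m (Sum.inr u) y → ∃ w, (w ∈ G ∨ w ∈ T) ∧ y = Sum.inr w)
    (A : Set (ℕ × ℕ)) {z z' : Vx} (h : RIn (F.D m) S z z') (hz : z ∈ Sum.inr '' G) :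
    z' ∈ (Sum.inr '' G : Set Vx) ∧ RIn (DA (F.D m) (arcs F m G H) A) S z z' := by
  obtain ⟨h1, h2⟩ := h
  induction h2 with
  | refl => exact ⟨hz, RIn.refl h1⟩
  | @tail b c h3 h4 ih =>
    obtain ⟨⟨g, hg, rfl⟩, h5⟩ := ih
    obtain ⟨w, hw, rfl⟩ := hout g hg c h4.1
    obtain ⟨w', hw', hww'⟩ := hS h4.2
    have hwH : w ∈ H := by
      have : w' = w := Sum.inr_injective hww'
      rwa [← this]
    have hwG : w ∈ G := by
      rcases hw with hw | hw
      · exact hw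
      · exact absurd hw (hHT w hwH)
    refine ⟨⟨w, hwG, rfl⟩, h5.tail ⟨h4.1, ?_⟩ h4.2⟩
    rintro p hp - ⟨h6, -⟩
    have : g = p.1 := Sum.inr_injective h6
    exact hp.2.2.2.1 (this ▸ hg)

lemma walk_notG (S : Set Vx) (A : Set (ℕ × ℕ)) {z z' : Vx}
    (h : RIn (F.D m) (S \ Sum.inr '' G) z z') :
    RIn (DA (F.D m) (arcs F m G H) A) S z z' := by
  refine h.mono ?_ Set.sdiff_subset
  intro u v huv _ hv
  refine ⟨huv, ?_⟩
  rintro p hp - ⟨-, h6⟩
  exact hv.2 ⟨p.2, hp.2.2.2.2, h6.symm⟩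

/-- a walk in `H` can be made to use at most one of the arcs -/
lemma walk_one (S : Set Vx) (hS : S ⊆ Sum.inr '' H) (hHT : ∀ v ∈ H, v ∉ T)
    (hout : ∀ u ∈ G, ∀ y, F.D m (Sum.inr u) y → ∃ w, (w ∈ G ∨ w ∈ T) ∧ y = Sum.inr w)
    {z z' : Vx} (h : RIn (F.D m) S z z') :
    ∃ A : Finset (ℕ × ℕ), A.card ≤ 1 ∧ RIn (DA (F.D m) (arcs F m G H) (A : Set (ℕ × ℕ))) S z z' := by
  by_cases hz : z ∈ (Sum.inr '' G : Set Vx)
  · exact ⟨∅, by simp, (walk_G S hS hHT hout _ h hz).2⟩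
  · by_cases hz' : z' ∈ (Sum.inr '' G : Set Vx)
    · obtain ⟨u, v, h1, h2, h3, h4, h5⟩ := h.enter hz hz'
      have huS := h1.right_mem.1
      have hvS := h5.left_mem
      obtain ⟨p, -, rfl⟩ := hS huS
      obtain ⟨q, hq, rfl⟩ := h4
      refine ⟨{(p, q)}, by simp, ?_⟩
      refine ((walk_notG S _ h1).tail ⟨h3, ?_⟩ hvS).trans
        (walk_G S hS hHT hout _ h5 ⟨q, hq, rfl⟩).2
      rintro r hr hrA ⟨h6, h7⟩
      apply hrA
      have e1 : p = r.1 := Sum.inr_injective h6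
      have e2 : q = r.2 := Sum.inr_injective h7
      simp [e1, e2]
    · refine ⟨∅, by simp, ?_⟩
      rcases h.avoid_or (Sum.inr '' G) with h1 | ⟨w, hw, -, h2⟩
      · exact walk_notG S _ h1
      · exact absurd (walk_G S hS hHT hout ∅ h2 hw).1 hz'

lemma wk_one (S : Set Vx) (hS : S ⊆ Sum.inr '' H) (hGH : G ⊆ H) (hHT : ∀ v ∈ H, v ∉ T)
    (hout : ∀ u ∈ G, ∀ y, F.D m (Sum.inr u) y → ∃ w, (w ∈ G ∨ w ∈ T) ∧ y = Sum.inr w)
    {u v : ℕ} (hu : u ∈ T) (hv : v ∈ T) (h : Wk (F.D m) S (Sum.inr u) (Sum.inr v)) :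
    ∃ A : Finset (ℕ × ℕ), A.card ≤ 1 ∧
      Wk (DA (F.D m) (arcs F m G H) (A : Set (ℕ × ℕ))) S (Sum.inr u) (Sum.inr v) := by
  obtain ⟨a, b, h1, h2, h3⟩ := h
  obtain ⟨A, hA, h4⟩ := walk_one S hS hHT hout h2
  refine ⟨A, hA, a, b, ⟨h1, ?_⟩, h4, ⟨h3, ?_⟩⟩
  · rintro p hp - ⟨h6, -⟩
    have : u = p.1 := Sum.inr_injective h6
    exact hHT p.1 hp.2.2.1 (this ▸ hu)
  · rintro p hp - ⟨-, h6⟩
    have : v = p.2 := Sum.inr_injective h6
    exact hHT p.2 (hGH hp.2.2.2.2) (this ▸ hv)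

end

/-! ## Deleting an edge -/

/-- the frame with the edge `x y` deleted -/
def del (F : Frame) (x y : ℕ) : Frame where
  V := F.V
  E := F.E
  isP := F.isP
  adj := fun u v => F.adj u v ∧ ¬ (u = x ∧ v = y)
  att := F.att
  co := F.co
  adj_wf := fun p q h => F.adj_wf p q h.1
  att_wf := F.att_wf
  att_uniq := F.att_uniq

lemma del_isPM {F : Frame} {m : ℕ → Vx} {x y : ℕ} (hm : F.IsPM m) (hx : x ∈ F.V) (hy : y ∈ F.V)
    (hxy : m x ≠ Sum.inr y) : (del F x y).IsPM m := by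
  intro v hv
  refine ⟨(hm v hv).1, ?_⟩
  intro u hu
  obtain ⟨h1, h2⟩ := (hm v hv).2 u hu
  refine ⟨?_, h2⟩
  rcases h1 with h1 | h1
  · left
    refine ⟨h1, ?_⟩
    rintro ⟨rfl, rfl⟩
    exact hxy hu
  · right
    refine ⟨h1, ?_⟩
    rintro ⟨rfl, rfl⟩
    exact hxy h2

lemma del_base {F : Frame} {m : ℕ → Vx} {x y : ℕ} : (del F x y).base m = F.base m := rfl

lemma del_D {F : Frame} {m : ℕ → Vx} {x y : ℕ} (hm : F.IsPM m) (hy : y ∈ F.V)
    (hxy : m x ≠ Sum.inr y) (a b : Vx) :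
    (del F x y).D m a b ↔ F.D m a b ∧ ¬ (a = Sum.inr x ∧ b = Sum.inr y) := by
  rcases a with e | u <;> rcases b with e' | v
  · simp [Frame.D]
  · constructor
    · intro h
      exact ⟨h, by simp⟩
    · intro h
      exact h.1
  · constructor
    · intro h
      exact ⟨h, by simp⟩
    · intro h
      exact h.1
  · constructor
    · rintro (⟨⟨h1, h2⟩, h3⟩ | ⟨⟨h1, h2⟩, h3⟩)
      · refine ⟨Or.inl ⟨h1, h3⟩, ?_⟩
        rintro ⟨h4, h5⟩
        exact h2 ⟨Sum.inr_injective h4, Sum.inr_injective h5⟩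
      · refine ⟨Or.inr ⟨h1, h3⟩, ?_⟩
        rintro ⟨h4, h5⟩
        have e1 : u = x := Sum.inr_injective h4
        have e2 : v = y := Sum.inr_injective h5
        subst e1 e2
        exact hxy h3
    · rintro ⟨⟨h1, h2⟩ | ⟨h1, h2⟩, h3⟩
      · left
        refine ⟨⟨h1, ?_⟩, h2⟩
        rintro ⟨rfl, rfl⟩
        exact h3 ⟨rfl, rfl⟩
      · right
        refine ⟨⟨h1, ?_⟩, h2⟩
        rintro ⟨rfl, rfl⟩
        exact hxy ((hm u hy).2 v h2).2

lemma del_edges {F : Frame} {x y : ℕ} (h : F.adj x y) : (del F x y).edges < F.edges := by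
  unfold Frame.edges
  apply Set.ncard_lt_ncard
  · refine ⟨fun p hp => hp.1, ?_⟩
    intro hsub
    exact (hsub (show ((x, y) : ℕ × ℕ) ∈ {p : ℕ × ℕ | F.adj p.1 p.2} from h)).2 ⟨rfl, rfl⟩
  · apply Set.Finite.subset ((F.V ×ˢ F.V).finite_toSet)
    intro p hp
    rw [Finset.mem_coe, Finset.mem_product]
    exact ⟨adj_left hp, adj_right hp⟩

/-- the required walks survive -/
lemma hold_del {F : Frame} {m : ℕ → Vx} {T : Finset ℕ} {G H C : Set ℕ} {s t x y : ℕ}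
    (hGH : G ⊆ H)
    (hout : ∀ u ∈ G, ∀ y, F.D m (Sum.inr u) y → ∃ w, (w ∈ G ∨ w ∈ T) ∧ y = Sum.inr w)
    (hin : ∀ v ∈ H, ∀ x, F.D m x (Sum.inr v) → ∃ w, (w ∈ H ∨ w ∈ T) ∧ x = Sum.inr w)
    (D' : Vx → Vx → Prop)
    (hD' : ∀ a b, D' a b ↔ F.D m a b ∧ ¬ (a = Sum.inr x ∧ b = Sum.inr y))
    (hDxy : F.D m (Sum.inr x) (Sum.inr y)) (hxH : x ∈ H) (hyG : y ∈ G)
    (hfix : ∀ u ∈ T, ∀ v ∈ T, Wk (F.D m) (Sum.inr '' (H ∩ C)) (Sum.inr u) (Sum.inr v) →
      Wk D' (Sum.inr '' (H ∩ C)) (Sum.inr u) (Sum.inr v))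
    (h : RIn (F.D m) (({Sum.inl s, Sum.inl t} : Set Vx) ∪ Sum.inr '' C) (Sum.inl s) (Sum.inl t)) :
    RIn D' (({Sum.inl s, Sum.inl t} : Set Vx) ∪ Sum.inr '' C) (Sum.inl s) (Sum.inl t) := by
  set S0 : Set Vx := ({Sum.inl s, Sum.inl t} : Set Vx) ∪ Sum.inr '' C with hS0
  by_contra hno
  have hsS : (Sum.inl s : Vx) ∈ S0 := h.left_mem
  have htS : (Sum.inl t : Vx) ∈ S0 := h.right_mem
  -- the walk leaves the set reachable from the start through the arc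
  have h1 : RIn D' S0 (Sum.inl s) (Sum.inr x) := by
    obtain ⟨u, v, -, h2, h3, h4, h5⟩ := h.enter (T := {z | ¬ RIn D' S0 (Sum.inl s) z})
      (by simpa using RIn.refl hsS) hno
    have hu : RIn D' S0 (Sum.inl s) u := by
      by_contra hc
      exact h2 hc
    by_cases hc : u = Sum.inr x ∧ v = Sum.inr y
    · rw [← hc.1]; exact hu
    · exact absurd (hu.tail ((hD' u v).2 ⟨h3, hc⟩) h5.left_mem) h4
  have h2 : RIn D' S0 (Sum.inr y) (Sum.inl t) := by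
    obtain ⟨u, v, h1', h2, h3, h4, h5⟩ := h.enter (T := {z | RIn D' S0 z (Sum.inl t)})
      hno (RIn.refl htS)
    by_cases hc : u = Sum.inr x ∧ v = Sum.inr y
    · rw [← hc.2]; exact h4
    · exact absurd (RIn.head ((hD' u v).2 ⟨h3, hc⟩) h1'.right_mem.1 h4) h2
  -- backward from `x` to `T`
  have hxN : (Sum.inr x : Vx) ∉ ((Sum.inr '' H)ᶜ : Set Vx) := fun hc => hc ⟨x, hxH, rfl⟩
  have hsN : (Sum.inl s : Vx) ∈ ((Sum.inr '' H)ᶜ : Set Vx) := by
    rintro ⟨w, -, hw⟩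
    exact absurd hw (by simp)
  obtain ⟨u', v', h3, h4, h5, h6, h7⟩ := h1.rev.enter hxN hsN
  have hu'H : u' ∈ (Sum.inr '' H : Set Vx) := by
    by_contra hc
    exact h4 hc
  obtain ⟨a, haH, rfl⟩ := hu'H
  obtain ⟨u0, hu0, rfl⟩ := hin a haH v' ((hD' _ _).1 h5).1
  have hu0T : u0 ∈ T := by
    rcases hu0 with hu0 | hu0
    · exact absurd (⟨u0, hu0, rfl⟩ : (Sum.inr u0 : Vx) ∈ (Sum.inr '' H : Set Vx)) h6
    · exact hu0
  have hsu0 : RIn D' S0 (Sum.inl s) (Sum.inr u0) := h7.rev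
  -- forward from `y` to `T`
  have hyN : (Sum.inr y : Vx) ∉ ((Sum.inr '' G)ᶜ : Set Vx) := fun hc => hc ⟨y, hyG, rfl⟩
  have htN : (Sum.inl t : Vx) ∈ ((Sum.inr '' G)ᶜ : Set Vx) := by
    rintro ⟨w, -, hw⟩
    exact absurd hw (by simp)
  obtain ⟨b', v1, g3, g4, g5, g6, g7⟩ := h2.enter hyN htN
  have hb'G : b' ∈ (Sum.inr '' G : Set Vx) := by
    by_contra hc
    exact g4 hc
  obtain ⟨b, hbG, rfl⟩ := hb'G
  obtain ⟨v0, hv0, rfl⟩ := hout b hbG v1 ((hD' _ _).1 g5).1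
  have hv0T : v0 ∈ T := by
    rcases hv0 with hv0 | hv0
    · exact absurd (⟨v0, hv0, rfl⟩ : (Sum.inr v0 : Vx) ∈ (Sum.inr '' G : Set Vx)) g6
    · exact hv0
  -- the part from `u0` to `v0`
  have hsubH : S0 \ (Sum.inr '' H)ᶜ ⊆ Sum.inr '' (H ∩ C) := by
    rintro z ⟨hz1, hz2⟩
    have hz3 : z ∈ (Sum.inr '' H : Set Vx) := by
      by_contra hc
      exact hz2 hc
    obtain ⟨w, hw, rfl⟩ := hz3
    refine ⟨w, ⟨hw, ?_⟩, rfl⟩
    rcases hz1 with hz1 | ⟨w', hw', hww⟩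
    · rcases hz1 with hz1 | hz1
      · exact absurd hz1 (by simp)
      · exact absurd hz1 (by simp)
    · rw [← Sum.inr_injective hww]; exact hw'
  have hsubG : S0 \ (Sum.inr '' G)ᶜ ⊆ Sum.inr '' (H ∩ C) := by
    rintro z ⟨hz1, hz2⟩
    apply hsubH
    refine ⟨hz1, ?_⟩
    intro hc
    apply hz2
    rintro ⟨w, hw, rfl⟩
    exact hc ⟨w, hGH hw, rfl⟩
  have hDmono : ∀ u v, D' u v → F.D m u v := fun u v huv => ((hD' u v).1 huv).1
  have hax : RIn (F.D m) (Sum.inr '' (H ∩ C)) (Sum.inr a) (Sum.inr x) :=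
    (h3.rev).mono (fun u v huv _ _ => hDmono u v huv) hsubH
  have hyb : RIn (F.D m) (Sum.inr '' (H ∩ C)) (Sum.inr y) (Sum.inr b) :=
    g3.mono (fun u v huv _ _ => hDmono u v huv) hsubG
  have hab : RIn (F.D m) (Sum.inr '' (H ∩ C)) (Sum.inr a) (Sum.inr b) :=
    (hax.tail hDxy hyb.left_mem).trans hyb
  have hwk : Wk (F.D m) (Sum.inr '' (H ∩ C)) (Sum.inr u0) (Sum.inr v0) :=
    ⟨Sum.inr a, Sum.inr b, hDmono _ _ h5, hab, hDmono _ _ g5⟩
  obtain ⟨a1, b1, k1, k2, k3⟩ := hfix u0 hu0T v0 hv0T hwk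
  have hSS : Sum.inr '' (H ∩ C) ⊆ S0 := by
    rintro z ⟨w, hw, rfl⟩
    exact Or.inr ⟨w, hw.2, rfl⟩
  have k4 : RIn D' S0 a1 b1 := k2.mono_set hSS
  apply hno
  exact ((hsu0.tail k1 k4.left_mem).trans k4).tail k3 g7.left_mem |>.trans g7

theorem arc (hEA : T_EA) (hREP : T_REP) : T_ARC := by
  intro k
  obtain ⟨NE, hNE⟩ := hEA k
  refine ⟨NE + 2 * k ^ 2, ?_⟩
  intro M B R F m col hmin T G H hTk hGH hHV hout hin
  classical
  have hHT : ∀ v ∈ H, v ∉ T := fun v hv => (hHV v hv).2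
  have hpm := hmin.1.pm
  change (arcs F m G H).ncard ≤ NE + 2 * k ^ 2
  by_contra hbig
  push Not at hbig
  -- the fixed walks
  have hA : ∀ (c : Bool) (u v : ℕ), ∃ A : Finset (ℕ × ℕ), A.card ≤ 1 ∧ (u ∈ T → v ∈ T →
      Wk (F.D m) (Sum.inr '' (H ∩ col c)) (Sum.inr u) (Sum.inr v) →
      Wk (DA (F.D m) (arcs F m G H) (A : Set (ℕ × ℕ))) (Sum.inr '' (H ∩ col c))
        (Sum.inr u) (Sum.inr v)) := by
    intro c u v
    by_cases h : u ∈ T ∧ v ∈ T ∧ Wk (F.D m) (Sum.inr '' (H ∩ col c)) (Sum.inr u) (Sum.inr v)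
    · obtain ⟨hu, hv, hw⟩ := h
      obtain ⟨A, hA1, hA2⟩ := wk_one (Sum.inr '' (H ∩ col c))
        (Set.image_mono Set.inter_subset_left) hGH hHT hout hu hv hw
      exact ⟨A, hA1, fun _ _ _ => hA2⟩
    · exact ⟨∅, by simp, fun hu hv hw => absurd ⟨hu, hv, hw⟩ h⟩
  choose Af hAf1 hAf2 using hA
  set A0 : Finset (ℕ × ℕ) := (Finset.univ ×ˢ (T ×ˢ T)).biUnion
    (fun q : Bool × (ℕ × ℕ) => Af q.1 q.2.1 q.2.2) with hA0
  have hA0card : A0.card ≤ 2 * k ^ 2 := by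
    calc A0.card ≤ (Finset.univ ×ˢ (T ×ˢ T) : Finset (Bool × (ℕ × ℕ))).card * 1 :=
          Finset.card_biUnion_le_card_mul _ _ _ (fun q _ => hAf1 _ _ _)
      _ = 2 * T.card ^ 2 := by
          rw [Finset.card_product, Finset.card_product, Finset.card_univ, Fintype.card_bool]
          ring
      _ ≤ 2 * k ^ 2 := by
          apply Nat.mul_le_mul_left
          exact Nat.pow_le_pow_left hTk 2
  set AR : Finset (ℕ × ℕ) := (arcs_finite F m G H).toFinset with hAR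
  have hARcard : AR.card = (arcs F m G H).ncard :=
    (Set.ncard_eq_toFinset_card _ (arcs_finite F m G H)).symm
  set Rm : Finset (ℕ × ℕ) := AR \ A0 with hRm
  have hRmcard : NE < Rm.card := by
    have h1 : AR.card - A0.card ≤ Rm.card := Finset.le_card_sdiff A0 AR
    omega
  -- enumerate the remaining arcs
  set n := Rm.card with hn
  let ev : Fin n ≃ Rm := (Finset.equivFin Rm).symm
  have hev : ∀ i, ((ev i : ℕ × ℕ)) ∈ arcs F m G H ∧ ((ev i : ℕ × ℕ)) ∉ A0 := by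
    intro i
    have h1 := Finset.mem_sdiff.1 (ev i).2
    exact ⟨(Set.Finite.mem_toFinset _).1 h1.1, h1.2⟩
  have hDarc : ∀ p ∈ arcs F m G H, F.D m (Sum.inr p.1) (Sum.inr p.2) := by
    intro p hp
    exact Or.inl ⟨hp.1, hp.2.1⟩
  have hiness : ∃ i : Fin n, ∀ (s : ℕ) (X Y : Set Vx), X ⊆ F.src m → Y ⊆ F.snk m →
      Lnk (F.D m) s X Y → Lnk (fun u v => F.D m u v ∧
        ¬ (u = Sum.inr (ev i : ℕ × ℕ).1 ∧ v = Sum.inr (ev i : ℕ × ℕ).2)) s X Y := by
    by_contra hcon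
    have h1 := hNE Vx (F.D m) F.uni (F.src m) (F.snk m) (Sum.inr '' G) (Sum.inr '' H)
      (T.image Sum.inr) F.uni_finite (fun u v h => D_uni h)
      (by
        rintro z ⟨e, he, -, rfl⟩
        exact Or.inr ⟨e, he, rfl⟩)
      (by
        rintro z ⟨e, he, rfl⟩
        exact Or.inr ⟨e, by simpa using base_subset he, rfl⟩)
      (by
        rintro z ⟨v, hv, rfl⟩
        exact Or.inl ⟨v, (hHV v hv).1, rfl⟩)
      (by
        rw [Finset.card_image_of_injective _ Sum.inr_injective]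
        exact hTk)
      (Set.image_mono hGH)
      (by
        rw [Set.disjoint_left]
        rintro z ⟨v, hv, rfl⟩ hz
        rw [Finset.mem_coe, Finset.mem_image] at hz
        obtain ⟨w, hw, hwv⟩ := hz
        exact hHT v hv (Sum.inr_injective hwv ▸ hw))
      (by
        rw [Set.disjoint_left]
        rintro z ⟨v, hv, rfl⟩ ⟨e, -, -, he⟩
        exact absurd he (by simp))
      (by
        rw [Set.disjoint_left]
        rintro z ⟨v, hv, rfl⟩ ⟨e, -, he⟩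
        exact absurd he (by simp))
      (by
        rintro z v ⟨u, hu, rfl⟩ huv
        obtain ⟨w, hw, rfl⟩ := hout u hu v huv
        rcases hw with hw | hw
        · exact Or.inl ⟨w, hw, rfl⟩
        · exact Or.inr (Finset.mem_image_of_mem _ hw))
      (by
        rintro u z ⟨v, hv, rfl⟩ huv
        obtain ⟨w, hw, rfl⟩ := hin v hv u huv
        rcases hw with hw | hw
        · exact Or.inl ⟨w, hw, rfl⟩
        · exact Or.inr (Finset.mem_image_of_mem _ hw))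
      n (fun i => Sum.inr (ev i : ℕ × ℕ).1) (fun i => Sum.inr (ev i : ℕ × ℕ).2)
      (by
        intro i
        obtain ⟨h2, -⟩ := hev i
        refine ⟨⟨_, h2.2.2.1, rfl⟩, ?_, ⟨_, h2.2.2.2.2, rfl⟩, hDarc _ h2⟩
        rintro ⟨w, hw, hwx⟩
        exact h2.2.2.2.1 (Sum.inr_injective hwx ▸ hw))
      (by
        intro i j hij h2
        rw [Prod.mk.injEq] at h2
        apply hij
        apply ev.injective
        apply Subtype.ext
        exact Prod.ext (Sum.inr_injective h2.1) (Sum.inr_injective h2.2))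
      (by
        intro i
        by_contra hc
        apply hcon
        refine ⟨i, fun s X Y hX hY hl => ?_⟩
        by_contra hn'
        exact hc ⟨s, X, Y, hX, hY, hl, hn'⟩)
    omega
  obtain ⟨i, hi⟩ := hiness
  obtain ⟨harc, hnA0⟩ := hev i
  set x := (ev i : ℕ × ℕ).1 with hx
  set y := (ev i : ℕ × ℕ).2 with hy
  have hpxy : (ev i : ℕ × ℕ) = (x, y) := rfl
  have hxV : x ∈ F.V := adj_left harc.1
  have hyV : y ∈ F.V := adj_right harc.1
  have hmxy : m x ≠ Sum.inr y := harc.2.1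
  have hDel := del_D (F := F) (m := m) (x := x) (y := y) hpm hyV hmxy
  have hpm' : (del F x y).IsPM m := del_isPM hpm hxV hyV hmxy
  have hrig : Rig M B R (del F x y) m col := by
    refine ⟨?_, hpm', ?_, hmin.1.disj, ?_⟩
    · apply hREP F (del F x y) m m M hmin.1.rep hpm hpm' rfl rfl
      intro n X Y hX hY _ _
      constructor
      · intro hl
        have h1 := hi n (Sum.inl '' X) (Sum.inl '' Y)
          (by
            rintro z ⟨e, he, rfl⟩
            exact ⟨e, by simpa using (hX he).1, (hX he).2, rfl⟩)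
          (by
            rintro z ⟨e, he, rfl⟩
            exact ⟨e, hY he, rfl⟩) hl
        exact h1.mono_rel (fun u v huv => (hDel u v).2 huv)
      · intro hl
        exact hl.mono_rel (fun u v huv => ((hDel u v).1 huv).1)
    · exact hmin.1.base
    · intro c s t hR
      apply hold_del (T := T) hGH hout hin ((del F x y).D m) hDel (hDarc _ harc)
        harc.2.2.1 harc.2.2.2.2 _ (hmin.1.hold c s t hR)
      intro u hu v hv hw
      obtain ⟨a, b, h1, h2, h3⟩ := hAf2 c u v hu hv hw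
      have hnot : (ev i : ℕ × ℕ) ∉ Af c u v := by
        intro hc
        apply hnA0
        rw [hA0, Finset.mem_biUnion]
        exact ⟨(c, (u, v)), by simp [hu, hv], hc⟩
      have hmono : ∀ z z', DA (F.D m) (arcs F m G H) (Af c u v : Set (ℕ × ℕ)) z z' →
          (del F x y).D m z z' := by
        intro z z' hz
        rw [hDel]
        exact ⟨hz.1, hz.2 _ harc (by simpa using hnot)⟩
      exact ⟨a, b, hmono _ _ h1, h2.mono (fun z z' hz _ _ => hmono z z' hz) subset_rfl,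
        hmono _ _ h3⟩
  have hlt := del_edges (F := F) (x := x) (y := y) harc.1
  rcases hmin.2 (del F x y) m col hrig with h1 | ⟨-, h1⟩
  · exact absurd h1 (lt_irrefl _)
  · omega

end Pool.Agent.H62.GW
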