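import Pool.Agent.H55.GW.Targets2

/-!
# BWC: highly connected matroids of the class without large pairs of trees are small
-/

set_option autoImplicit false

namespace Pool.Agent.H62.GW

open Pool.Agent.H55.GW Pool.Agent.H55.GW.Frame

section rel

variable {F : Frame} {m : ℕ → Vx} {S : Set Vx}

/-- a source is only reached from itself -/
lemma reach_src {e : ℕ} (he : e ∉ F.base m) {x : Vx} (h : RIn (F.D m) S x (Sum.inl e)) :
    x = Sum.inl e := by
  rcases h.cases_tail with h | ⟨z, -, hz⟩
  · exact h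
  · exact absurd hz (no_in_src he z)

/-- a sink reaches only itself -/
lemma reach_snk {e : ℕ} (he : e ∈ F.base m) {x : Vx} (h : RIn (F.D m) S (Sum.inl e) x) :
    x = Sum.inl e := by
  rcases h.cases_head with h | ⟨z, hz, -, -⟩
  · exact h.symm
  · exact absurd hz (no_out_snk he z)

/-- the ends of a nontrivial walk between real elements -/
lemma ends_of_walk {r s : ℕ} (hrs : r ≠ s) (h : RIn (F.D m) S (Sum.inl r) (Sum.inl s)) :
    r ∈ F.E ∧ r ∉ F.base m ∧ s ∈ F.base m := by
  refine ⟨?_, ?_, ?_⟩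
  · rcases h.cases_head with h | ⟨z, hz, -, -⟩
    · exact absurd (Sum.inl_injective h) hrs
    · rcases (D_uni hz).1 with ⟨v, _, hv⟩ | ⟨e, he, hre⟩
      · exact absurd hv (by simp)
      · rwa [Sum.inl_injective hre]
  · intro hr
    exact hrs (Sum.inl_injective (reach_snk hr h)).symm
  · by_contra hs
    exact hrs (Sum.inl_injective (reach_src hs h))

end rel

lemma relR_symm {F : Frame} {m : ℕ → Vx} {H : Finset ℕ} {r s : ℕ} (h : RelR F m H r s) :
    RelR F m H s r := ⟨h.1.symm, h.2.symm⟩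

lemma relR_mem {F : Frame} {m : ℕ → Vx} {H : Finset ℕ} {r s : ℕ} (h : RelR F m H r s) :
    r ∈ F.E ∧ (r ∈ F.base m ↔ s ∉ F.base m) := by
  obtain ⟨hrs, h | h⟩ := h
  · obtain ⟨h1, h2, h3⟩ := ends_of_walk hrs h
    exact ⟨h1, ⟨fun h4 => absurd h4 h2, fun h4 => absurd h3 h4⟩⟩
  · obtain ⟨h1, h2, h3⟩ := ends_of_walk hrs.symm h
    exact ⟨by simpa using base_subset h3, ⟨fun _ => h2, fun _ => h3⟩⟩

theorem bwc (hDEG : T_DEG) (hCMP : T_CMP) (hREL : T_REL) (hDST : T_DST) (hNCB : T_NCB)
    (hISO : T_ISO) (hCMB : T_CMB) (hDUR : T_DUR) (hDUG : T_DUG) : T_BWC := by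
  intro q hq φ hφ N
  obtain ⟨d, hd⟩ := hDEG q hq φ hφ N
  obtain ⟨Δ, hΔ⟩ := hNCB q hq φ hφ N d
  obtain ⟨n, hn⟩ := hCMB q hq φ hφ N
  obtain ⟨n₀, hn₀⟩ := hDST Δ (2 * (n + 1) + 2)
  refine ⟨2 * (2 + 2 * φ 2), ?_⟩
  intro f₀
  refine ⟨3 * f₀ + n₀ + f₀ + 1, ?_⟩
  intro M F hGam hrep hall hconn
  classical
  by_contra hbig
  push Not at hbig
  have hE : M.E = (F.E : Set ℕ) := hrep.1
  have hEfin : M.E.Finite := hGam.1
  obtain ⟨B, hB⟩ := M.exists_isBase
  obtain ⟨m, hpm, hbase⟩ := (hrep.2 B).1 hB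
  obtain ⟨hEx, hFe, hFan, hCoFan, hRT, hRTd⟩ := hall m hpm
  obtain ⟨H, hHV, hHc, hHd⟩ := hd M F m hGam hrep hpm hEx hFe hFan hCoFan hRT hRTd
  -- exceptional vertices
  set X1 : Finset ℕ := F.V.filter (fun v => ∀ t ∈ F.snk m,
    ¬ RIn (F.D m) (Sum.inr '' (H : Set ℕ))ᶜ (Sum.inr v) t) with hX1
  set X2 : Finset ℕ := F.V.filter (fun v => ∀ s ∈ F.src m,
    ¬ RIn (F.D m) (Sum.inr '' (H : Set ℕ))ᶜ s (Sum.inr v)) with hX2
  have hHim : ((H.image Sum.inr : Finset Vx) : Set Vx) = Sum.inr '' (H : Set ℕ) := by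
    rw [Finset.coe_image]
  have hHimc : (H.image Sum.inr : Finset Vx).card ≤ 2 := Finset.card_image_le.trans hHc
  have hX1c : X1.card ≤ φ 2 := by
    have h1 := hEx (X1.image Sum.inr)
      (by
        intro x hx
        obtain ⟨v, hv, rfl⟩ := Finset.mem_image.1 hx
        exact Or.inl ⟨v, (Finset.mem_filter.1 hv).1, rfl⟩) (H.image Sum.inr)
      (by
        rw [hHim]
        intro x hx t ht
        rw [Finset.mem_coe] at hx
        obtain ⟨v, hv, rfl⟩ := Finset.mem_image.1 hx
        exact (Finset.mem_filter.1 hv).2 t ht)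
    rw [Finset.card_image_of_injective _ Sum.inr_injective] at h1
    exact h1.trans (hφ hHimc)
  have hX2c : X2.card ≤ φ 2 := by
    have h1 := hFe (X2.image Sum.inr)
      (by
        intro x hx
        obtain ⟨v, hv, rfl⟩ := Finset.mem_image.1 hx
        exact Or.inl ⟨v, (Finset.mem_filter.1 hv).1, rfl⟩) (H.image Sum.inr)
      (by
        rw [hHim]
        intro s hs x hx
        rw [Finset.mem_coe] at hx
        obtain ⟨v, hv, rfl⟩ := Finset.mem_image.1 hx
        exact (Finset.mem_filter.1 hv).2 s hs)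
    rw [Finset.card_image_of_injective _ Sum.inr_injective] at h1
    exact h1.trans (hφ hHimc)
  set K : Finset ℕ := H ∪ (X1 ∪ X2) with hK
  have hKc : K.card ≤ 2 + 2 * φ 2 := by
    calc K.card ≤ H.card + (X1 ∪ X2).card := Finset.card_union_le _ _
      _ ≤ H.card + (X1.card + X2.card) := Nat.add_le_add_left (Finset.card_union_le _ _) _
      _ ≤ 2 + 2 * φ 2 := by omega
  obtain ⟨r, hr, hrc⟩ := hCMP M F m hrep hpm K f₀
    (fun X hX hlam => hconn X hX (hlam.trans (by omega))) (by omega)
  -- the component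
  set Rs : Set ℕ := {s | s ∈ M.E ∧ RIn F.G (Sum.inr '' (K : Set ℕ))ᶜ (Sum.inl r) (Sum.inl s)}
    with hRs
  have hRsfin : Rs.Finite := hEfin.subset (fun s hs => hs.1)
  have hRscard : n₀ < hRsfin.toFinset.card := by
    rw [← Set.ncard_eq_toFinset_card _ hRsfin]
    have h1 : M.E ⊆ Rs ∪ {s | s ∈ M.E ∧ ¬ RIn F.G (Sum.inr '' (K : Set ℕ))ᶜ (Sum.inl r)
        (Sum.inl s)} := by
      intro s hs
      by_cases h : RIn F.G (Sum.inr '' (K : Set ℕ))ᶜ (Sum.inl r) (Sum.inl s)
      · exact Or.inl ⟨hs, h⟩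
      · exact Or.inr ⟨hs, h⟩
    have h2 := Set.ncard_le_ncard h1 (hRsfin.union (hEfin.subset (fun s hs => hs.1)))
    have h3 := Set.ncard_union_le Rs {s | s ∈ M.E ∧ ¬ RIn F.G (Sum.inr '' (K : Set ℕ))ᶜ
      (Sum.inl r) (Sum.inl s)}
    omega
  have hrel : ∀ s ∈ Rs, Relation.ReflTransGen (RelR F m H) r s := by
    intro s hs
    apply hREL F m hpm H K Finset.subset_union_left _ r s hs.2
    intro v hv hvK
    have hv1 : v ∉ X1 := fun h => hvK (Finset.mem_union_right _ (Finset.mem_union_left _ h))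
    have hv2 : v ∉ X2 := fun h => hvK (Finset.mem_union_right _ (Finset.mem_union_right _ h))
    constructor
    · by_contra hc
      apply hv1
      rw [hX1, Finset.mem_filter]
      exact ⟨hv, fun t ht hr => hc ⟨t, ht, hr⟩⟩
    · by_contra hc
      apply hv2
      rw [hX2, Finset.mem_filter]
      exact ⟨hv, fun t ht hr => hc ⟨t, ht, hr⟩⟩
  have hsymm : ∀ x y, Relation.ReflTransGen (RelR F m H) x y →
      Relation.ReflTransGen (RelR F m H) y x := by
    intro x y h
    induction h with
    | refl => exact Relation.ReflTransGen.refl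
    | tail _ h2 ih => exact Relation.ReflTransGen.head (relR_symm h2) ih
  -- degrees
  have hdeg : ∀ x, {y | RelR F m H x y}.Finite ∧ {y | RelR F m H x y}.ncard ≤ Δ := by
    intro x
    have hbf : (F.base m).Finite := F.E.finite_toSet.subset base_subset
    by_cases hxE : x ∈ F.E
    · by_cases hxb : x ∈ F.base m
      · -- a sink
        have hdG : ∀ v ∈ F.dual.V, v ∉ H → {x | F.dual.G (Sum.inr v) x}.ncard ≤ d := by
          intro v hv hvH
          have h1 : {x | F.dual.G (Sum.inr v) x} = {x | F.G (Sum.inr v) x} := by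
            ext x
            rcases x with e | u
            · exact Iff.rfl
            · exact or_comm
          rw [h1]
          exact hHd v hv hvH
        have hdEx : F.dual.Exits m φ := by
          intro X hX S hS
          apply hFe X
          · intro x hx
            rcases hX x hx with h | h
            · exact Or.inl h
            · right
              rwa [dual_snk] at h
          · rw [dual_sep hpm, dual_snk] at hS
            exact hS
        have hdFe : F.dual.Feeds m φ := by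
          intro X hX S hS
          apply hEx X
          · intro x hx
            rcases hX x hx with h | h
            · exact Or.inl h
            · right
              rwa [dual_src] at h
          · rw [dual_sep hpm, dual_src] at hS
            exact hS
        have h1 := hΔ M.dual F.dual m (hDUG q M hGam) (hDUR F M hrep) (dual_isPM.2 hpm) hdEx hdFe
          hRTd H hdG x hxE (by
            rw [dual_base]
            exact fun h => h.2 hxb)
        have hsub : {y | RelR F m H x y} ⊆ {b | b ∈ F.dual.base m ∧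
            RIn (F.dual.D m) (Sum.inr '' (H : Set ℕ))ᶜ (Sum.inl x) (Sum.inl b)} := by
          intro y hy
          have hy1 := relR_mem (relR_symm hy)
          obtain ⟨hne, h | h⟩ := hy
          · exact absurd hxb (ends_of_walk hne h).2.1
          · refine ⟨?_, (dual_rIn hpm).2 h⟩
            rw [dual_base]
            exact ⟨hy1.1, (ends_of_walk hne.symm h).2.1⟩
        have hfin2 : {b | b ∈ F.dual.base m ∧
            RIn (F.dual.D m) (Sum.inr '' (H : Set ℕ))ᶜ (Sum.inl x) (Sum.inl b)}.Finite :=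
          F.E.finite_toSet.subset (fun b hb => base_subset (F := F.dual) hb.1)
        exact ⟨hfin2.subset hsub, (Set.ncard_le_ncard hsub hfin2).trans h1⟩
      · -- a source
        have h1 := hΔ M F m hGam hrep hpm hEx hFe hRT H hHd x hxE hxb
        have hsub : {y | RelR F m H x y} ⊆ {b | b ∈ F.base m ∧
            RIn (F.D m) (Sum.inr '' (H : Set ℕ))ᶜ (Sum.inl x) (Sum.inl b)} := by
          intro y hy
          obtain ⟨hne, h | h⟩ := hy
          · exact ⟨(ends_of_walk hne h).2.2, h⟩
          · exact absurd (ends_of_walk hne.symm h).2.2 hxb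
        have hfin2 : {b | b ∈ F.base m ∧
            RIn (F.D m) (Sum.inr '' (H : Set ℕ))ᶜ (Sum.inl x) (Sum.inl b)}.Finite :=
          hbf.subset (fun b hb => hb.1)
        exact ⟨hfin2.subset hsub, (Set.ncard_le_ncard hsub hfin2).trans h1⟩
    · have hempty : {y | RelR F m H x y} = ∅ := by
        ext y
        simp only [Set.mem_ofPred_eq, Set.mem_empty_iff_false, iff_false]
        intro hy
        exact hxE (relR_mem hy).1
      rw [hempty]
      exact ⟨Set.finite_empty, by simp⟩
  obtain ⟨ρ, hρ1, hρ2⟩ := hn₀ (RelR F m H) hRsfin.toFinset (fun x y h => relR_symm h) hdeg hRscard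
    (by
      intro x hx y hy
      rw [Set.Finite.mem_toFinset] at hx hy
      exact (hsymm _ _ (hrel x hx)).trans (hrel y hy))
  -- alternation
  have halt : ∀ i, i + 1 ≤ 2 * (n + 1) + 2 → (ρ i ∈ F.base m ↔ ρ (i + 1) ∉ F.base m) := by
    intro i hi
    exact (relR_mem ((hρ2 i (by omega) (i + 1) hi (by omega)).2 (Or.inl rfl))).2
  have hmemE : ∀ i, i ≤ 2 * (n + 1) + 2 → ρ i ∈ F.E := by
    intro i hi
    by_cases h0 : i + 1 ≤ 2 * (n + 1) + 2
    · exact (relR_mem ((hρ2 i (by omega) (i + 1) h0 (by omega)).2 (Or.inl rfl))).1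
    · exact (relR_mem ((hρ2 i hi (i - 1) (by omega) (by omega)).2 (Or.inr (by omega)))).1
  obtain ⟨s, hs, hsb⟩ : ∃ s, s ≤ 1 ∧ ρ s ∉ F.base m := by
    by_cases h0 : ρ 0 ∈ F.base m
    · exact ⟨1, le_rfl, (halt 0 (by omega)).1 h0⟩
    · exact ⟨0, by omega, h0⟩
  have hpar : ∀ i, i < n + 1 → ρ (s + 2 * i) ∉ F.base m ∧ ρ (s + 2 * i + 1) ∈ F.base m := by
    intro i
    induction i with
    | zero =>
      intro _
      refine ⟨by simpa using hsb, ?_⟩
      have h1 := halt s (by omega)
      by_contra h2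
      exact hsb (h1.2 (by simpa using h2))
    | succ i ih =>
      intro hi
      obtain ⟨h1, h2⟩ := ih (by omega)
      have h3 := halt (s + 2 * i + 1) (by omega)
      have h4 := halt (s + 2 * i + 2) (by omega)
      have h5 : ρ (s + 2 * i + 2) ∉ F.base m := h3.1 h2
      have e1 : s + 2 * (i + 1) = s + 2 * i + 2 := by ring
      rw [e1]
      refine ⟨h5, ?_⟩
      by_contra h6
      exact h5 (h4.2 h6)
  obtain ⟨m', a', v, t, Seg, Ex, hpm', ha'E, ha'b, hcomb⟩ := hISO F m hpm
    (Sum.inr '' (H : Set ℕ)) (n + 1) (fun i => ρ (s + 2 * i)) (fun i => ρ (s + 2 * i + 1))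
    (fun i hi => ⟨hmemE _ (by omega), (hpar i hi).1, (hpar i hi).2⟩)
    (fun i hi j hj hij => ⟨hρ1 _ (by omega) _ (by omega) (by omega),
      hρ1 _ (by omega) _ (by omega) (by omega)⟩)
    (by
      intro i hi j hj
      have hne : ρ (s + 2 * i) ≠ ρ (s + 2 * j + 1) := by
        intro h
        exact (hpar i hi).1 (h ▸ (hpar j hj).2)
      have h1 := hρ2 (s + 2 * i) (by omega) (s + 2 * j + 1) (by omega) (by omega)
      have h2 : RIn (F.D m) (Sum.inr '' (H : Set ℕ))ᶜ (Sum.inl (ρ (s + 2 * i)))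
          (Sum.inl (ρ (s + 2 * j + 1))) ↔ RelR F m H (ρ (s + 2 * i)) (ρ (s + 2 * j + 1)) := by
        constructor
        · exact fun h => ⟨hne, Or.inl h⟩
        · rintro ⟨-, h | h⟩
          · exact h
          · exact absurd (ends_of_walk hne.symm h).2.2 (hpar i hi).1
      rw [h2, h1]
      constructor
      · rintro (h | h)
        · left; omega
        · right; omega
      · rintro (h | h)
        · left; omega
        · right; omega)
    (by omega)
  obtain ⟨hEx', hFe', -, -, hRT', -⟩ := hall m' hpm'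
  exact hn M F m' hGam hrep hpm' hEx' hFe' hRT' a' ha'E ha'b v t Seg Ex hcomb

end Pool.Agent.H62.GW
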