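import Pool.Agent.H55.GW.Targets2

/-!
# STR: in a minor-minimal bad matroid every other walk meets the trees
-/

set_option autoImplicit false

namespace Pool.Agent.H62.GW

open Pool.Agent.H55.GW Pool.Agent.H55.GW.Frame

/-- a walk avoids a set which it cannot enter -/
lemma avoid_of_no_in {W : Type} {D : W → W → Prop} {S Z : Set W} {x y : W} (h : RIn D S x y)
    (hx : x ∉ Z) (hZ : ∀ u ∈ S, ∀ v ∈ S, D u v → u ∉ Z → v ∉ Z) : RIn D (S \ Z) x y := by
  obtain ⟨h1, h2⟩ := h
  induction h2 with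
  | refl => exact RIn.refl ⟨h1, hx⟩
  | @tail b c h3 h4 ih =>
    have hb := ih.right_mem
    exact ih.tail h4.1 ⟨h4.2, hZ b hb.1 c h4.2 h4.1 hb.2⟩

lemma nxt_mem {W : Type} {l : List W} {u v : W} (h : Nxt l u v) : u ∈ l ∧ v ∈ l := by
  obtain ⟨l₁, l₂, rfl⟩ := h
  simp

/-- required walks of a pair of trees -/
lemma rr2_cases {a₁ a₂ : ℕ} {P₁ P₂ : Set ℕ} {c : Bool} {s t : ℕ} (h : RR2 a₁ a₂ P₁ P₂ c s t) :
    (s = a₁ ∨ s = a₂) ∧ (t ∈ P₁ ∨ t ∈ P₂) := by
  rcases h with ⟨-, h1, h2⟩ | ⟨-, h1, h2⟩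
  · exact ⟨Or.inl h1, Or.inl h2⟩
  · exact ⟨Or.inr h1, Or.inr h2⟩

theorem str (hEXC : T_EXC) (hMDEL : T_MDEL) (hMCON : T_MCON) (hTUT : T_TUT) : T_STR := by
  intro Γ M a₁ a₂ P₁ P₂ hne hP hbig hmin B F m col hrig hP₁ hP₂ ha₁ ha₂ e heE heB hea₁ hea₂ b hb
    hbP₁ hbP₂ hwalk
  have hrep := hrig.rep
  have hpm := hrig.pm
  have hbase := hrig.base
  have hE : M.E = (F.E : Set ℕ) := hrep.1
  have heF : e ∈ F.E := by
    have := heE
    rw [hE] at this
    exact this
  have hfin : M.E.Finite := by rw [hE]; exact F.E.finite_toSet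
  have heb : e ∉ F.base m := by rw [hbase]; exact heB
  have hbb : b ∈ F.base m := by rw [hbase]; exact hb
  have hneb : e ≠ b := fun h => heB (h ▸ hb)
  have hst : ∀ c s t, RR2 a₁ a₂ P₁ P₂ c s t → e ≠ s ∧ e ≠ t := by
    intro c s t h
    obtain ⟨h1, h2⟩ := rr2_cases h
    refine ⟨?_, ?_⟩
    · rcases h1 with h1 | h1
      · rw [h1]; exact hea₁
      · rw [h1]; exact hea₂
    · rintro rfl
      rcases h2 with h2 | h2
      · exact heB (hP₁ h2)
      · exact heB (hP₂ h2)
  -- deletion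
  have hdel : ∃ Z ⊆ M.E \ {e}, P₁ ⊆ Z ∧ Disjoint P₂ Z ∧ lam (M.delete {e}) Z ≤ Γ := by
    obtain ⟨F1, h1, h2, h3, -, h5⟩ := hMDEL F M m e hrep hpm heF heb
    by_contra hcon
    apply (hmin e heE).1
    refine ⟨B, F1, m, col, ⟨h1, h2, by rw [h3, hbase], hrig.disj, ?_⟩, hP₁, hP₂, ?_, ?_, ?_⟩
    · intro c s t hR
      obtain ⟨hes, het⟩ := hst c s t hR
      have hw := hrig.hold c s t hR
      have hw2 := avoid_of_no_in (Z := {x | ∃ w ∈ F.V, m w = Sum.inl e ∧ x = Sum.inr w}) hw
        (by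
          rintro ⟨w, -, -, h⟩
          exact absurd h (by simp))
        (by
          rintro u hu v - huv - ⟨w, hw, hmw, rfl⟩
          have hatt : F.att e w := (hpm w hw).1 e hmw
          have hPw : F.isP w := by
            by_contra hQ
            exact heb ((mem_base_iff hatt).2 ⟨fun h => absurd h hQ, fun h => absurd hmw h⟩)
          have hu2 := in_P hpm hPw huv
          rw [hmw] at hu2
          subst hu2
          rcases hu with hu | ⟨w', -, hu⟩
          · rcases hu with hu | hu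
            · exact hes (Sum.inl_injective hu)
            · exact het (Sum.inl_injective hu)
          · exact absurd hu (by simp))
      refine hw2.mono ?_ Set.sdiff_subset
      intro u v huv hu hv
      have key : ∀ z ∈ (({Sum.inl s, Sum.inl t} : Set Vx) ∪ Sum.inr '' col c) \
          {x | ∃ w ∈ F.V, m w = Sum.inl e ∧ x = Sum.inr w}, z ≠ Sum.inl e ∧
            ∀ w ∈ F.V, m w = Sum.inl e → z ≠ Sum.inr w := by
        rintro z ⟨hz1, hz2⟩
        refine ⟨?_, ?_⟩
        · rintro rfl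
          rcases hz1 with hz1 | ⟨w', -, hz1⟩
          · rcases hz1 with hz1 | hz1
            · exact hes (Sum.inl_injective hz1)
            · exact het (Sum.inl_injective hz1)
          · exact absurd hz1 (by simp)
        · rintro w hw hmw rfl
          exact hz2 ⟨w, hw, hmw, rfl⟩
      rw [h5]
      exact ⟨huv, (key u hu).1, (key v hv).1, fun w hw hmw =>
        ⟨(key u hu).2 w hw hmw, (key v hv).2 w hw hmw⟩⟩
    · rw [Matroid.delete_ground]
      exact ⟨⟨ha₁.1, fun h => hea₁ h.symm⟩, ha₁.2⟩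
    · rw [Matroid.delete_ground]
      exact ⟨⟨ha₂.1, fun h => hea₂ h.symm⟩, ha₂.2⟩
    · intro Z hZ hP₁Z hP₂Z
      rw [Matroid.delete_ground] at hZ
      by_contra hle
      exact hcon ⟨Z, hZ, hP₁Z, hP₂Z, not_lt.1 hle⟩
  -- contraction
  have hcontr : ∃ Z ⊆ M.E \ {e}, P₁ ⊆ Z ∧ Disjoint P₂ Z ∧ lam (M.contract {e}) Z ≤ Γ := by
    obtain ⟨l, hl, hlS⟩ := hwalk.exists_path
    obtain ⟨m', hpm', hbase', hD'⟩ := hEXC F m hpm 1 (fun _ => l) (fun _ => e) (fun _ => b)
      (fun _ => hl) (fun _ => ⟨heF, heb, hbb⟩) (fun i j hij => absurd (Subsingleton.elim i j) hij)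
    have hbase'' : F.base m' = (B \ {b}) ∪ {e} := by
      rw [hbase', hbase, Set.range_const, Set.range_const]
    have heb' : e ∈ F.base m' := by rw [hbase'']; exact Or.inr rfl
    obtain ⟨F2, h1, h2, h3, -, h5⟩ := hMCON F M m' e hrep hpm' heb'
    have hcoll : ∀ c, ∀ w ∈ col c, (Sum.inr w : Vx) ∉ l := by
      intro c w hw hwl
      apply hlS _ hwl
      refine ⟨w, ?_, rfl⟩
      cases c
      · exact Or.inr hw
      · exact Or.inl hw
    have hbase2 : F2.base m' = B \ {b} := by
      rw [h3, hbase'']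
      ext x
      simp only [Set.mem_sdiff, Set.mem_union, Set.mem_singleton_iff]
      constructor
      · rintro ⟨h | h, h'⟩
        · exact h
        · exact absurd h h'
      · rintro ⟨h, h'⟩
        exact ⟨Or.inl ⟨h, h'⟩, fun hx => heB (hx ▸ h)⟩
    by_contra hcon
    apply (hmin e heE).2
    refine ⟨B \ {b}, F2, m', col, ⟨h1, h2, hbase2, hrig.disj, ?_⟩, ?_, ?_, ?_, ?_, ?_⟩
    · intro c s t hR
      obtain ⟨hes, het⟩ := hst c s t hR
      refine (hrig.hold c s t hR).mono ?_ subset_rfl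
      intro u v huv hu hv
      have hD1 : F.D m' u v := by
        rw [hD']
        left
        refine ⟨huv, ?_⟩
        rintro ⟨_, hn⟩
        obtain ⟨hul, hvl⟩ := nxt_mem hn
        rcases hu with hu | ⟨w, hw, rfl⟩
        · rcases hv with hv | ⟨w, hw, rfl⟩
          · rcases hu with rfl | hu <;> rcases hv with rfl | hv
            · exact huv
            · rw [Set.mem_singleton_iff] at hv; subst hv; exact huv
            · rw [Set.mem_singleton_iff] at hu; subst hu; exact huv
            · rw [Set.mem_singleton_iff] at hu hv; subst hu hv; exact huv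
          · exact hcoll c w hw hvl
        · exact hcoll c w hw hul
      have key : ∀ z ∈ (({Sum.inl s, Sum.inl t} : Set Vx) ∪ Sum.inr '' col c), z ≠ Sum.inl e ∧
            ∀ w ∈ F.V, m' w = Sum.inl e → z ≠ Sum.inr w := by
        intro z hz1
        refine ⟨?_, ?_⟩
        · rintro rfl
          rcases hz1 with hz1 | ⟨w', -, hz1⟩
          · rcases hz1 with hz1 | hz1
            · exact hes (Sum.inl_injective hz1)
            · exact het (Sum.inl_injective hz1)
          · exact absurd hz1 (by simp)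
        · rintro w hw hmw rfl
          rcases hz1 with hz1 | ⟨w', hw', hz1⟩
          · rcases hz1 with hz1 | hz1
            · exact absurd hz1 (by simp)
            · exact absurd hz1 (by simp)
          · have : w' = w := Sum.inr_injective hz1
            subst this
            have hatt : F.att e w' := (hpm' w' hw).1 e hmw
            -- the second vertex of the path
            rcases hl.rIn.cases_head with h | ⟨z, hz, hzl, -⟩
            · exact hneb (Sum.inl_injective h)
            · rcases z with e' | v'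
              · exact hz
              · have : v' = w' := F.att_uniq e _ _ hz.1 hatt
                subst this
                exact hcoll c v' hw' hzl
      rw [h5]
      exact ⟨hD1, (key u hu).1, (key v hv).1, fun w hw hmw =>
        ⟨(key u hu).2 w hw hmw, (key v hv).2 w hw hmw⟩⟩
    · exact fun p hp => ⟨hP₁ hp, fun h => hbP₁ (h ▸ hp)⟩
    · exact fun p hp => ⟨hP₂ hp, fun h => hbP₂ (h ▸ hp)⟩
    · rw [Matroid.contract_ground]
      exact ⟨⟨ha₁.1, fun h => hea₁ h.symm⟩, fun h => ha₁.2 h.1⟩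
    · rw [Matroid.contract_ground]
      exact ⟨⟨ha₂.1, fun h => hea₂ h.symm⟩, fun h => ha₂.2 h.1⟩
    · intro Z hZ hP₁Z hP₂Z
      rw [Matroid.contract_ground] at hZ
      by_contra hle
      exact hcon ⟨Z, hZ, hP₁Z, hP₂Z, not_lt.1 hle⟩
  have hBE : B ⊆ M.E := by
    rw [← hbase, hE]
    exact base_subset
  obtain ⟨Z, hZE, hPZ, hPZ', hle⟩ := hTUT M hfin e heE P₁ P₂ Γ
    (fun p hp => ⟨hBE (hP₁ hp), fun h => heB (h ▸ hP₁ hp)⟩)
    (fun p hp => ⟨hBE (hP₂ hp), fun h => heB (h ▸ hP₂ hp)⟩) hdel hcontr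
  exact absurd (hbig Z hZE hPZ hPZ') (not_lt.2 hle)

end Pool.Agent.H62.GW
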