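import Pool.Agent.H55.GW.Targets2
import Pool.Agent.H62.GW.STR

/-!
# CC: a separation of bounded order gives a bounded vertex separator
-/

set_option autoImplicit false

namespace Pool.Agent.H62.GW

open Pool.Agent.H55.GW Pool.Agent.H55.GW.Frame

/-- disjoint crossing arcs -/
def Fam (D : Vx → Vx → Prop) (O : Set Vx) (C : Finset (Vx × Vx)) : Prop :=
  (∀ p ∈ C, D p.1 p.2 ∧ p.1 ∈ O ∧ p.2 ∉ O) ∧
    ∀ p ∈ C, ∀ p' ∈ C, (p.1 = p'.1 ∨ p.2 = p'.2) → p = p'

/-- glueing feeding walks, arcs and exits -/
lemma glue {D : Vx → Vx → Prop} {U O : Set Vx} (hMEN : T_MEN) (hU : U.Finite)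
    (hDU : ∀ u v, D u v → u ∈ U ∧ v ∈ U) (src snk : Set Vx) (hsrc : src ⊆ U) (hsnk : snk ⊆ U)
    (hLO : ∀ x y, D x y → y ∈ O → x ∈ O) (C : Finset (Vx × Vx)) (hC : Fam D O C)
    (a b : ℕ)
    (hex : ∀ C' ⊆ C, a ≤ C'.card → ∀ S : Finset Vx,
      Sep D (S : Set Vx) {y | ∃ p ∈ C', y = p.2} snk → b ≤ S.card)
    (c : ℕ)
    (hfe' : ∀ C' ⊆ C, b ≤ C'.card → ∀ S : Finset Vx,
      Sep D (S : Set Vx) src {x | ∃ p ∈ C', x = p.1} → c ≤ S.card)
    (ha : a ≤ C.card) : Lnk D c (src ∩ O) (snk \ O) := by
  classical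
  -- exits
  obtain ⟨y, t, S, hS1, hS2⟩ := hMEN Vx D U hU hDU {y | ∃ p ∈ C, y = p.2} snk
    (by
      rintro z ⟨p, hp, rfl⟩
      exact (hDU _ _ (hC.1 p hp).1).2) hsnk b (fun S hS => hex C subset_rfl ha S hS)
  have hinjy : Function.Injective y := (lnk_inj (fun i => (hS1 i).2.2) hS2).1
  choose f hf1 hf2 using fun i => (hS1 i).1
  have hinjf : Function.Injective f := by
    intro i j hij
    apply hinjy
    rw [hf2, hf2, hij]
  set C' : Finset (Vx × Vx) := Finset.univ.image f with hC'
  have hC'sub : C' ⊆ C := by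
    intro p hp
    obtain ⟨i, -, rfl⟩ := Finset.mem_image.1 hp
    exact hf1 i
  have hC'card : b ≤ C'.card := by
    rw [hC', Finset.card_image_of_injective _ hinjf, Finset.card_univ, Fintype.card_fin]
  -- feeds
  obtain ⟨s, x, S', hS'1, hS'2⟩ := hMEN Vx D U hU hDU src {x | ∃ p ∈ C', x = p.1} hsrc
    (by
      rintro z ⟨p, hp, rfl⟩
      exact (hDU _ _ (hC.1 p (hC'sub hp)).1).1) c (fun S hS => hfe' C' hC'sub hC'card S hS)
  have hinjx : Function.Injective x := (lnk_inj (fun i => (hS'1 i).2.2) hS'2).2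
  have hg : ∀ k, ∃ i, x k = (f i).1 := by
    intro k
    obtain ⟨p, hp, hpx⟩ := (hS'1 k).2.1
    obtain ⟨i, -, rfl⟩ := Finset.mem_image.1 hp
    exact ⟨i, hpx⟩
  choose g hg1 using hg
  have hinjg : Function.Injective g := by
    intro k k' hk
    apply hinjx
    rw [hg1, hg1, hk]
  -- stay in the sides
  have hstayL : ∀ i, RIn D (S i \ O) (y i) (t i) := by
    intro i
    apply avoid_of_no_in (hS1 i).2.2
    · rw [hf2 i]
      exact (hC.1 _ (hf1 i)).2.2
    · intro u _ v _ huv hu hv
      exact hu (hLO u v huv hv)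
  have hstayO : ∀ k, RIn D (S' k \ Oᶜ) (s k) (x k) := by
    intro k
    have h1 := avoid_of_no_in (D := fun a b => D b a) (Z := Oᶜ) ((hS'1 k).2.2).rev
      (by
        rw [hg1 k]
        exact fun h => h (hC.1 _ (hf1 _)).2.1)
      (by
        intro u _ v _ huv hu hv
        apply hv
        apply hLO v u huv
        by_contra hc
        exact hu hc)
    exact h1.rev
  refine ⟨s, fun k => t (g k), fun k => (S' k \ Oᶜ) ∪ (S (g k) \ O), ?_, ?_⟩
  · intro k
    refine ⟨⟨(hS'1 k).1, ?_⟩, ⟨(hS1 _).2.1, ?_⟩, ?_⟩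
    · have := (hstayO k).left_mem.2
      by_contra hc
      exact this hc
    · exact (hstayL (g k)).right_mem.2
    · have h1 : RIn D ((S' k \ Oᶜ) ∪ (S (g k) \ O)) (s k) (x k) :=
        (hstayO k).mono_set Set.subset_union_left
      have h2 : RIn D ((S' k \ Oᶜ) ∪ (S (g k) \ O)) (y (g k)) (t (g k)) :=
        (hstayL (g k)).mono_set Set.subset_union_right
      have h3 : D (x k) (y (g k)) := by
        rw [hg1 k, hf2 (g k)]
        exact (hC.1 _ (hf1 _)).1
      exact (h1.tail h3 h2.left_mem).trans h2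
  · intro k k' hkk
    rw [Set.disjoint_left]
    rintro z (hz | hz) (hz' | hz')
    · exact Set.disjoint_left.1 (hS'2 k k' hkk) hz.1 hz'.1
    · exact hz.2 hz'.2
    · exact hz'.2 hz.2
    · exact Set.disjoint_left.1 (hS2 (g k) (g k') (fun h => hkk (hinjg h))) hz.1 hz'.1

theorem cc (hMEN : T_MEN) (hLB : T_LB) (hLAML : T_LAML) : T_CC := by
  intro q hq φ hφ t
  refine ⟨2 * φ (φ t), ?_⟩
  intro M F hGam hrep hgood Z hZ hlam
  classical
  have hE : M.E = (F.E : Set ℕ) := hrep.1
  -- a base meeting `Z` in a basis of `Z`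
  obtain ⟨I, hI⟩ := M.exists_isBasis Z hZ
  obtain ⟨B, hB, hIB⟩ := hI.indep.exists_isBase_superset
  obtain ⟨m, hpm, hbase⟩ := (hrep.2 B).1 hB
  have hnew : ∀ e ∈ Z, e ∉ B → ∀ b ∈ B, b ∉ Z → ¬ M.IsBase ((B \ {b}) ∪ {e}) := by
    intro e he heB b hb hbZ hbase'
    have h1 : insert e I ⊆ (B \ {b}) ∪ {e} := by
      rintro x (rfl | hx)
      · exact Or.inr rfl
      · left
        refine ⟨hIB hx, ?_⟩
        rintro rfl
        exact hbZ (hI.subset hx)
    have h2 : M.Indep (insert e I) := hbase'.indep.subset h1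
    have h3 : insert e I ⊆ Z := Set.insert_subset he hI.subset
    have h4 := hI.eq_of_subset_indep h2 (Set.subset_insert e I) h3
    exact heB (hIB (h4 ▸ Set.mem_insert e I))
  -- no walk
  have hnowalk : ∀ e ∈ Z, e ∉ B → ∀ b ∈ B, b ∉ Z →
      ¬ RIn (F.D m) Set.univ (Sum.inl e) (Sum.inl b) := by
    intro e he heB b hb hbZ hr
    have heE : e ∈ F.E := by
      have := hZ he
      rw [hE] at this
      exact this
    have h1 := (hLB F m hpm {e} {b}
      (by
        rw [Set.singleton_subset_iff]
        exact ⟨heE, by rw [hbase]; exact heB⟩)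
      (by
        rw [Set.singleton_subset_iff, hbase]
        exact hb)
      (by rw [Set.ncard_singleton, Set.ncard_singleton])).2
      (by
        rw [Set.ncard_singleton]
        exact ⟨fun _ => Sum.inl e, fun _ => Sum.inl b, fun _ => Set.univ,
          fun _ => ⟨⟨e, rfl, rfl⟩, ⟨b, rfl, rfl⟩, hr⟩,
          fun i j hij => absurd (Subsingleton.elim i j) hij⟩)
    obtain ⟨m', hpm', hbase'⟩ := h1
    apply hnew e he heB b hb hbZ
    rw [hbase] at hbase'
    exact (hrep.2 _).2 ⟨m', hpm', hbase'⟩
  set O : Set Vx := {x | (∃ b ∈ B, b ∉ Z ∧ RIn (F.D m) Set.univ x (Sum.inl b)) ∨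
    ∃ e ∈ M.E, e ∉ Z ∧ e ∉ B ∧ x = Sum.inl e} with hO
  have hBE : B ⊆ M.E := hB.subset_ground
  have hLmem : ∀ e ∈ M.E, (Sum.inl e : Vx) ∈ O ↔ e ∉ Z := by
    intro e he
    constructor
    · rintro (⟨b, hb, hbZ, hr⟩ | ⟨e', he', he'Z, he'B, hee⟩) heZ
      · by_cases heB : e ∈ B
        · rcases hr.cases_head with h | ⟨z, hz, -, -⟩
          · exact hbZ (Sum.inl_injective h ▸ heZ)
          · exact no_out_snk (by rw [hbase]; exact heB) z hz
        · exact hnowalk e heZ heB b hb hbZ hr
      · exact he'Z (Sum.inl_injective hee ▸ heZ)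
    · intro heZ
      by_cases heB : e ∈ B
      · exact Or.inl ⟨e, heB, heZ, RIn.refl (Set.mem_univ _)⟩
      · exact Or.inr ⟨e, he, heZ, heB, rfl⟩
  have hLO : ∀ x y, F.D m x y → y ∈ O → x ∈ O := by
    rintro x y hxy (⟨b, hb, hbZ, hr⟩ | ⟨e, he, heZ, heB, rfl⟩)
    · exact Or.inl ⟨b, hb, hbZ, RIn.head hxy (Set.mem_univ _) hr⟩
    · exact absurd hxy (no_in_src (by rw [hbase]; exact heB) x)
  -- a maximal family of disjoint crossing arcs
  have hUf := F.uni_finite
  set UU : Finset (Vx × Vx) := hUf.toFinset ×ˢ hUf.toFinset with hUU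
  have hFamsub : ∀ C, Fam (F.D m) O C → C ⊆ UU := by
    intro C hC p hp
    obtain ⟨h1, h2⟩ := D_uni (hC.1 p hp).1
    rw [hUU, Finset.mem_product, Set.Finite.mem_toFinset, Set.Finite.mem_toFinset]
    exact ⟨h1, h2⟩
  have hne : (UU.powerset.filter (fun C => Fam (F.D m) O C)).Nonempty := by
    refine ⟨∅, ?_⟩
    rw [Finset.mem_filter]
    exact ⟨Finset.empty_mem_powerset _, by
      constructor
      · intro p hp; simp at hp
      · intro p hp; simp at hp⟩
  obtain ⟨C, hCmem, hCmax⟩ := Finset.exists_max_image _ Finset.card hne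
  rw [Finset.mem_filter] at hCmem
  have hC : Fam (F.D m) O C := hCmem.2
  -- its size
  have hxin : ∀ p ∈ C, p.1 ∈ F.inn ∨ p.1 ∈ F.src m := by
    intro p hp
    have hD := (hC.1 p hp).1
    rcases (D_uni hD).1 with h | ⟨e, he, hpe⟩
    · exact Or.inl h
    · right
      refine ⟨e, he, ?_, hpe⟩
      intro heb
      rw [hpe] at hD
      exact no_out_snk heb _ hD
  have hyin : ∀ p ∈ C, p.2 ∈ F.inn ∨ p.2 ∈ F.snk m := by
    intro p hp
    have hD := (hC.1 p hp).1
    rcases (D_uni hD).2 with h | ⟨e, he, hpe⟩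
    · exact Or.inl h
    · right
      refine ⟨e, ?_, hpe⟩
      by_contra heb
      rw [hpe] at hD
      exact no_in_src heb _ hD
  have hCcard : C.card ≤ φ (φ t) := by
    by_contra hbig
    push Not at hbig
    obtain ⟨hExits, hFeeds⟩ := hgood m hpm
    have hlnk : Lnk (F.D m) (t + 1) (F.src m ∩ O) (F.snk m \ O) := by
      apply glue hMEN hUf (fun u v h => D_uni h) (F.src m) (F.snk m)
        (by
          rintro z ⟨e, he, -, rfl⟩
          exact Or.inr ⟨e, he, rfl⟩)
        (by
          rintro z ⟨e, he, rfl⟩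
          exact Or.inr ⟨e, by simpa using base_subset he, rfl⟩)
        hLO C hC (φ (φ t) + 1) (φ t + 1) _ (t + 1) _ hbig
      · intro C' hC' hcard S hS
        have h1 := hExits (C'.image Prod.snd)
          (by
            intro z hz
            obtain ⟨p, hp, rfl⟩ := Finset.mem_image.1 hz
            exact hyin p (hC' hp)) S
          (by
            apply hS.mono subset_rfl _ subset_rfl
            intro z hz
            rw [Finset.mem_coe] at hz
            obtain ⟨p, hp, rfl⟩ := Finset.mem_image.1 hz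
            exact ⟨p, hp, rfl⟩)
        have h2 : (C'.image Prod.snd).card = C'.card := by
          apply Finset.card_image_of_injOn
          intro p hp p' hp' h
          exact hC.2 p (hC' hp) p' (hC' hp') (Or.inr h)
        rw [h2] at h1
        by_contra hlt
        push Not at hlt
        have h3 : φ S.card ≤ φ (φ t) := hφ (by omega)
        omega
      · intro C' hC' hcard S hS
        have h1 := hFeeds (C'.image Prod.fst)
          (by
            intro z hz
            obtain ⟨p, hp, rfl⟩ := Finset.mem_image.1 hz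
            exact hxin p (hC' hp)) S
          (by
            apply hS.mono subset_rfl subset_rfl _
            intro z hz
            rw [Finset.mem_coe] at hz
            obtain ⟨p, hp, rfl⟩ := Finset.mem_image.1 hz
            exact ⟨p, hp, rfl⟩)
        have h2 : (C'.image Prod.fst).card = C'.card := by
          apply Finset.card_image_of_injOn
          intro p hp p' hp' h
          exact hC.2 p (hC' hp) p' (hC' hp') (Or.inl h)
        rw [h2] at h1
        by_contra hlt
        push Not at hlt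
        have h3 : φ S.card ≤ φ t := hφ (by omega)
        omega
    have h1 := hLAML F M m hrep hpm Z hZ 0 (t + 1) lnk_zero
      (hlnk.mono le_rfl
        (by
          rintro z ⟨⟨e, he, heb, rfl⟩, hz⟩
          refine ⟨e, ⟨⟨?_, ?_⟩, heb⟩, rfl⟩
          · rw [hE]; exact he
          · exact (hLmem e (by rw [hE]; exact he)).1 hz)
        (by
          rintro z ⟨⟨e, he, rfl⟩, hz⟩
          refine ⟨e, ⟨he, ?_⟩, rfl⟩
          by_contra heZ
          have heE : e ∈ M.E := by rw [hE]; exact base_subset he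
          exact hz ((hLmem e heE).2 heZ)))
    omega
  -- the separator
  let τ : Vx → ℕ := fun x => match x with
    | Sum.inr v => v
    | Sum.inl e => if h : ∃ v, F.att e v then h.choose else 0
  have hτ : ∀ e v, F.att e v → τ (Sum.inl e) = v := by
    intro e v he
    have hex : ∃ v, F.att e v := ⟨v, he⟩
    change (if h : ∃ v, F.att e v then h.choose else 0) = v
    rw [dif_pos hex]
    exact F.att_uniq e _ _ hex.choose_spec he
  have hcov : ∀ z z' : Vx, F.G z z' → z = Sum.inr (τ z) ∨ z' = Sum.inr (τ z) := by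
    intro z z' hG
    rcases z with e | v
    · rcases z' with e' | v'
      · exact absurd hG (by simp [Frame.G])
      · right
        rw [hτ e v' hG]
    · left
      rfl
  refine ⟨Oᶜ, C.image (fun p => τ p.1) ∪ C.image (fun p => τ p.2), ?_, ?_, ?_⟩
  · calc (C.image (fun p => τ p.1) ∪ C.image (fun p => τ p.2)).card
        ≤ (C.image (fun p => τ p.1)).card + (C.image (fun p => τ p.2)).card :=
          Finset.card_union_le _ _
      _ ≤ C.card + C.card := Nat.add_le_add Finset.card_image_le Finset.card_image_le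
      _ ≤ 2 * φ (φ t) := by omega
  · intro e he
    rw [Set.mem_compl_iff, hLmem e he, not_not]
  · intro x y hG hx hy
    have hyO : y ∈ O := by
      by_contra hc
      exact hy hc
    have hxO : x ∉ O := hx
    have hD : F.D m y x := by
      rcases G_D hpm hG with h | h
      · exact absurd (hLO x y h hyO) hxO
      · exact h
    -- maximality
    have hmeet : (∃ p ∈ C, y = p.1) ∨ (∃ p ∈ C, x = p.2) := by
      by_contra hcon
      push Not at hcon
      obtain ⟨hc1, hc2⟩ := hcon
      have hnotin : (y, x) ∉ C := fun h => hc1 (y, x) h rfl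
      have hFam' : Fam (F.D m) O (insert (y, x) C) := by
        constructor
        · intro p hp
          rcases Finset.mem_insert.1 hp with rfl | hp
          · exact ⟨hD, hyO, hxO⟩
          · exact hC.1 p hp
        · intro p hp p' hp' h
          rcases Finset.mem_insert.1 hp with rfl | hp <;>
            rcases Finset.mem_insert.1 hp' with rfl | hp'
          · rfl
          · exfalso
            rcases h with h | h
            · exact hc1 p' hp' h
            · exact hc2 p' hp' h
          · exfalso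
            rcases h with h | h
            · exact hc1 p hp h.symm
            · exact hc2 p hp h.symm
          · exact hC.2 p hp p' hp' h
      have h1 := hCmax (insert (y, x) C) (by
        rw [Finset.mem_filter, Finset.mem_powerset]
        exact ⟨hFamsub _ hFam', hFam'⟩)
      rw [Finset.card_insert_of_notMem hnotin] at h1
      omega
    rcases hmeet with ⟨p, hp, hyp⟩ | ⟨p, hp, hxp⟩
    · refine ⟨τ p.1, Finset.mem_union_left _ (Finset.mem_image.2 ⟨p, hp, rfl⟩), ?_⟩
      rw [← hyp]
      rcases hcov y x (G_symm hG) with h | h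
      · exact Or.inr h
      · exact Or.inl h
    · refine ⟨τ p.2, Finset.mem_union_right _ (Finset.mem_image.2 ⟨p, hp, rfl⟩), ?_⟩
      rw [← hxp]
      exact hcov x y hG

end Pool.Agent.H62.GW
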