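import Pool.Agent.H55.GW.Targets1

/-!
# T1P: expansion for vertices of class `P`
-/

set_option autoImplicit false

namespace Pool.Agent.H62.GW

open Pool.Agent.H55.GW Pool.Agent.H55.GW.Frame

/-- minimum separators exist -/
lemma exists_min_sep {W : Type} (D : W → W → Prop) (X Y : Set W) (S : Finset W)
    (hS : Sep D (S : Set W) X Y) : ∃ S₀ : Finset W, Sep D (S₀ : Set W) X Y ∧ S₀.card ≤ S.card ∧
      ∀ S' : Finset W, Sep D (S' : Set W) X Y → S₀.card ≤ S'.card := by
  classical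
  have hex : ∃ n : ℕ, ∃ S' : Finset W, Sep D (S' : Set W) X Y ∧ S'.card = n := ⟨_, S, hS, rfl⟩
  obtain ⟨S₀, h1, h2⟩ := Nat.find_spec hex
  refine ⟨S₀, h1, ?_, ?_⟩
  · rw [h2]
    exact Nat.find_min' hex ⟨S, hS, rfl⟩
  · intro S' hS'
    rw [h2]
    exact Nat.find_min' hex ⟨S', hS', rfl⟩

/-- `v` is touched by `K` -/
def touch (F : Frame) (K : Finset Vx) (v : ℕ) : Prop :=
  (Sum.inr v : Vx) ∈ K ∨ ∃ e, F.att e v ∧ (Sum.inl e : Vx) ∈ K

/-- the vertices touched by `K` and their mates -/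
def TT (F : Frame) (m : ℕ → Vx) (K : Finset Vx) : Set ℕ :=
  {v | v ∈ F.V ∧ (touch F K v ∨ ∃ u, m v = Sum.inr u ∧ touch F K u)}

lemma TT_sub (F : Frame) (m : ℕ → Vx) (K : Finset Vx) : TT F m K ⊆ (F.V : Set ℕ) :=
  fun _ hv => hv.1

lemma TT_finite (F : Frame) (m : ℕ → Vx) (K : Finset Vx) : (TT F m K).Finite :=
  F.V.finite_toSet.subset (TT_sub F m K)

lemma TT_card (F : Frame) (m : ℕ → Vx) (hm : F.IsPM m) (K : Finset Vx) :
    (TT_finite F m K).toFinset.card ≤ 2 * K.card := by
  classical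
  -- vertex touched by an element
  let τ : Vx → ℕ := fun x => match x with
    | Sum.inr v => v
    | Sum.inl e => if h : ∃ v, F.att e v then h.choose else 0
  have hτ : ∀ v, touch F K v → v ∈ K.image τ := by
    rintro v (h | ⟨e, he, h⟩)
    · exact Finset.mem_image.2 ⟨_, h, rfl⟩
    · refine Finset.mem_image.2 ⟨_, h, ?_⟩
      have hex : ∃ v, F.att e v := ⟨v, he⟩
      change (if h : ∃ v, F.att e v then h.choose else 0) = v
      rw [dif_pos hex]
      exact F.att_uniq e _ _ hex.choose_spec he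
  let μ : ℕ → ℕ := fun u => match m u with
    | Sum.inr w => w
    | Sum.inl _ => 0
  have hsub : (TT_finite F m K).toFinset ⊆ K.image τ ∪ (K.image τ).image μ := by
    intro v hv
    rw [Set.Finite.mem_toFinset] at hv
    obtain ⟨hV, h | ⟨u, hu, h⟩⟩ := hv
    · exact Finset.mem_union_left _ (hτ v h)
    · apply Finset.mem_union_right
      refine Finset.mem_image.2 ⟨u, hτ u h, ?_⟩
      have h1 : m u = Sum.inr v := ((hm v hV).2 u hu).2
      change (match m u with
        | Sum.inr w => w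
        | Sum.inl _ => 0) = v
      rw [h1]
  calc (TT_finite F m K).toFinset.card ≤ (K.image τ ∪ (K.image τ).image μ).card :=
        Finset.card_le_card hsub
    _ ≤ (K.image τ).card + ((K.image τ).image μ).card := Finset.card_union_le _ _
    _ ≤ K.card + K.card := by
        apply Nat.add_le_add Finset.card_image_le
        exact Finset.card_image_le.trans Finset.card_image_le
    _ = 2 * K.card := by ring

lemma TT_mate {F : Frame} {m : ℕ → Vx} (hm : F.IsPM m) {K : Finset Vx} {u v : ℕ} (hv : v ∈ F.V)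
    (huv : m v = Sum.inr u) (h : v ∈ TT F m K) : u ∈ TT F m K := by
  have h1 := (hm v hv).2 u huv
  have huV : u ∈ F.V := by
    rcases h1.1 with h2 | h2
    · exact adj_right h2
    · exact adj_left h2
  refine ⟨huV, ?_⟩
  obtain ⟨-, h2 | ⟨w, hw, h2⟩⟩ := h
  · exact Or.inr ⟨v, h1.2, h2⟩
  · left
    have : w = u := Sum.inr_injective (hw.symm.trans huv)
    rwa [← this]

lemma not_mem_of_not_TT {F : Frame} {m : ℕ → Vx} {K : Finset Vx} {v : ℕ} (hv : v ∈ F.V)
    (h : v ∉ TT F m K) : (Sum.inr v : Vx) ∉ K ∧ ∀ e, F.att e v → (Sum.inl e : Vx) ∉ K := by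
  constructor
  · intro h1
    exact h ⟨hv, Or.inl (Or.inl h1)⟩
  · intro e he h1
    exact h ⟨hv, Or.inl (Or.inr ⟨e, he, h1⟩)⟩

theorem t1p (hFUN : T_FUN) (hARC : T_ARC) (hRR : T_RR) : T_T1P := by
  intro q hq
  choose εf hεf using hFUN q hq
  choose Nf hNf using hARC
  choose gf hgf using hRR
  let k1 : ℕ → ℕ := fun b => εf b + b
  let ψ : ℕ → ℕ := fun b => 2 * k1 b + gf (2 * k1 b + Nf (2 * k1 b))
  refine ⟨fun n => (Finset.range (n + 1)).sup ψ, ?_, ?_⟩
  · intro a b hab
    apply Finset.sup_mono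
    intro x hx
    rw [Finset.mem_range] at hx ⊢
    omega
  intro M B R F m col hGam hmin X hX S hS
  classical
  obtain ⟨Sm, hSm, hSmc, hSmin⟩ := exists_min_sep _ _ _ S hS
  have hpm := hmin.1.pm
  have hle : ψ Sm.card ≤ (Finset.range (S.card + 1)).sup ψ := by
    apply Finset.le_sup (f := ψ)
    rw [Finset.mem_range]
    omega
  refine le_trans ?_ hle
  set b := Sm.card with hb
  have hXuni : (Sum.inr '' (X : Set ℕ) : Set Vx) ⊆ F.uni := by
    rintro z ⟨p, hp, rfl⟩
    exact Or.inl ⟨p, (hX p hp).1, rfl⟩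
  obtain ⟨K0, hK0c, hK0⟩ := hεf b M B R F m col hGam hmin (Sum.inr '' (X : Set ℕ)) Sm hXuni hSm
    hSmin le_rfl
  set Φ : Set Vx := {x | ∃ p ∈ F.V, F.isP p ∧ ¬ F.Exc p ∧ x = Sum.inr p ∧ x ∉ Sm ∧
      Sep (F.D m) (Sm : Set Vx) {x} (F.snk m)} with hΦ
  set K1 : Finset Vx := K0 ∪ Sm with hK1
  have hK1c : K1.card ≤ k1 b := by
    calc K1.card ≤ K0.card + Sm.card := Finset.card_union_le _ _
      _ ≤ εf b + b := Nat.add_le_add_right hK0c _
  set T : Finset ℕ := (TT_finite F m K1).toFinset with hT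
  have hTmem : ∀ v, v ∈ T ↔ v ∈ TT F m K1 := fun v => Set.Finite.mem_toFinset _
  have hTc : T.card ≤ 2 * k1 b := (TT_card F m hpm K1).trans (by omega)
  have hTmate : ∀ u v, v ∈ F.V → m v = Sum.inr u → v ∈ T → u ∈ T := by
    intro u v hv huv h
    rw [hTmem] at h ⊢
    exact TT_mate hpm hv huv h
  -- untouched vertices
  have hunt : ∀ v ∈ F.V, v ∉ T → ((Sum.inr v : Vx) ∉ K0 ∧ (Sum.inr v : Vx) ∉ Sm ∧
      (∀ e, F.att e v → (Sum.inl e : Vx) ∉ K0) ∧ ∀ e, F.att e v → (Sum.inl e : Vx) ∉ Sm) := by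
    intro v hv h
    rw [hTmem] at h
    obtain ⟨h1, h2⟩ := not_mem_of_not_TT hv h
    refine ⟨fun h3 => h1 (Finset.mem_union_left _ h3), fun h3 => h1 (Finset.mem_union_right _ h3),
      fun e he h3 => h2 e he (Finset.mem_union_left _ h3),
      fun e he h3 => h2 e he (Finset.mem_union_right _ h3)⟩
  -- (1)
  have f1 : ∀ p ∈ F.V, p ∉ T → F.isP p → Sep (F.D m) (Sm : Set Vx) {Sum.inr p} (F.snk m) →
      (Sum.inr p : Vx) ∈ Φ := by
    intro p hp hpT hP hsep
    obtain ⟨_, h2, _, h4⟩ := hunt p hp hpT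
    refine ⟨p, hp, hP, ?_, rfl, h2, hsep⟩
    rintro ⟨hnoadj, e, e', hee, he, he', -⟩
    -- the mate is one of the two real neighbours; the other one is a sink
    have hsink : ∃ e1, F.att e1 p ∧ m p ≠ Sum.inl e1 := by
      by_cases h : m p = Sum.inl e
      · refine ⟨e', he', ?_⟩
        rw [h]
        intro h5
        exact hee (Sum.inl_injective h5)
      · exact ⟨e, he, h⟩
    obtain ⟨e1, he1, hne⟩ := hsink
    have hbase : e1 ∈ F.base m := (mem_base_iff he1).2 ⟨fun _ => hne, fun _ => hP⟩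
    have hD : F.D m (Sum.inr p) (Sum.inl e1) := ⟨he1, hbase⟩
    apply hsep (Sum.inr p) rfl (Sum.inl e1) ⟨e1, hbase, rfl⟩
    exact RIn.single hD (by simpa using h2) (by simpa using h4 e1 he1)
  have f1m : ∀ p ∈ F.V, p ∉ T → (Sum.inr p : Vx) ∈ Φ → ∃ u, m p = Sum.inr u := by
    intro p hp hpT hpΦ
    obtain ⟨h1, _, h3, _⟩ := hunt p hp hpT
    rcases hpm.cases hp with ⟨e, he, he'⟩ | ⟨u, hu, -⟩
    · exfalso
      have hP : F.isP p := by
        obtain ⟨p', _, h5, _, h6, _⟩ := hpΦ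
        rwa [Sum.inr_injective h6]
      have hD := D_mate_P hpm hp hP
      rw [he] at hD
      have hnb : e ∉ F.base m := fun h => ((mem_base_iff he').1 h).1 hP he
      apply hK0 (Sum.inl e) ⟨e, att_E he', hnb, rfl⟩ (Sum.inr p) hpΦ
      exact RIn.single hD (by simpa using h3 e he') (by simpa using h1)
    · exact ⟨u, hu⟩
  -- the sets
  set G : Set ℕ := {v | v ∈ F.V ∧ v ∉ T ∧ ((F.isP v ∧ (Sum.inr v : Vx) ∈ Φ) ∨
    (¬ F.isP v ∧ ∃ p, m v = Sum.inr p ∧ (Sum.inr p : Vx) ∈ Φ))} with hG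
  set H : Set ℕ := {v | v ∈ F.V ∧ v ∉ T ∧ Sep (F.D m) (K0 : Set Vx) (F.src m) {Sum.inr v}} with hH
  have hΦP : ∀ p, (Sum.inr p : Vx) ∈ Φ → p ∈ F.V ∧ F.isP p ∧
      Sep (F.D m) (Sm : Set Vx) {Sum.inr p} (F.snk m) := by
    rintro p ⟨p', h1, h2, _, h3, _, h4⟩
    have : p = p' := Sum.inr_injective h3
    subst this
    exact ⟨h1, h2, h4⟩
  -- mates
  have hmate : ∀ u v, v ∈ F.V → m v = Sum.inr u → u ∈ F.V ∧ m u = Sum.inr v ∧
      (F.isP v ↔ ¬ F.isP u) := by
    intro u v hv huv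
    rcases hpm.cases hv with ⟨e, he, -⟩ | ⟨u', hu', h1, h2, h3, -⟩
    · rw [he] at huv
      exact absurd huv (by simp)
    · have : u' = u := Sum.inr_injective (hu'.symm.trans huv)
      subst this
      exact ⟨h1, h2, h3⟩
  have hGclosed : ∀ v ∈ G, ∃ u ∈ G, m v = Sum.inr u := by
    rintro v ⟨hv, hvT, ⟨hP, hvΦ⟩ | ⟨hQ, p, hp, hpΦ⟩⟩
    · obtain ⟨u, hu⟩ := f1m v hv hvT hvΦ
      obtain ⟨h1, h2, h3⟩ := hmate u v hv hu
      refine ⟨u, ⟨h1, ?_, Or.inr ⟨h3.1 hP, v, h2, hvΦ⟩⟩, hu⟩
      intro huT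
      exact hvT (hTmate v u h1 h2 huT)
    · obtain ⟨h1, h2, h3⟩ := hmate p v hv hp
      refine ⟨p, ⟨h1, ?_, Or.inl ⟨(hΦP p hpΦ).2.1, hpΦ⟩⟩, hp⟩
      intro hpT
      exact hvT (hTmate v p h1 h2 hpT)
  -- (2)
  have hout : ∀ u ∈ G, ∀ y, F.D m (Sum.inr u) y → ∃ w, (w ∈ G ∨ w ∈ T) ∧ y = Sum.inr w := by
    intro v hvG y hy
    by_cases hP : F.isP v
    · obtain ⟨hv, hvT, h⟩ := hvG
      have hvΦ : (Sum.inr v : Vx) ∈ Φ := by
        rcases h with h | h
        · exact h.2
        · exact absurd hP h.1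
      obtain ⟨_, _, hsep⟩ := hΦP v hvΦ
      obtain ⟨_, hvS, _, hvS'⟩ := hunt v hv hvT
      rcases y with e | w
      · exfalso
        obtain ⟨h1, h2⟩ := hy
        apply hsep (Sum.inr v) rfl (Sum.inl e) ⟨e, h2, rfl⟩
        exact RIn.single (D := F.D m) ⟨h1, h2⟩ (by simpa using hvS) (by simpa using hvS' e h1)
      · refine ⟨w, ?_, rfl⟩
        by_cases hwT : w ∈ T
        · exact Or.inr hwT
        · left
          have hwV : w ∈ F.V := by
            rcases (D_uni hy).2 with ⟨w', h1, h2⟩ | ⟨e, _, h2⟩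
            · rwa [Sum.inr_injective h2]
            · exact absurd h2 (by simp)
          have hwQ : ¬ F.isP w := by
            rcases hy with ⟨h1, _⟩ | ⟨h1, _⟩
            · exact adj_notP h1
            · exact absurd hP (adj_notP h1)
          obtain ⟨_, hwS, _, hwS'⟩ := hunt w hwV hwT
          have hDw := D_mate_Q hpm hwV hwQ
          rcases hpm.cases hwV with ⟨e, he, he'⟩ | ⟨p', hp', h1, h2, h3, -⟩
          · exfalso
            rw [he] at hDw
            have hbase : e ∈ F.base m :=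
              (mem_base_iff he').2 ⟨fun h => absurd h hwQ, fun h => absurd he h⟩
            apply hsep (Sum.inr v) rfl (Sum.inl e) ⟨e, hbase, rfl⟩
            exact RIn.head hy (by simpa using hvS)
              (RIn.single hDw (by simpa using hwS) (by simpa using hwS' e he'))
          · rw [hp'] at hDw
            have hp'T : p' ∉ T := fun h => hwT (hTmate w p' h1 h2 h)
            obtain ⟨_, hp'S, _, _⟩ := hunt p' h1 hp'T
            have hp'P : F.isP p' := by
              by_contra hc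
              exact hwQ (h3.2 hc)
            refine ⟨hwV, hwT, Or.inr ⟨hwQ, p', hp', ?_⟩⟩
            apply f1 p' h1 hp'T hp'P
            intro x hx t ht hr
            rw [Set.mem_singleton_iff] at hx
            subst hx
            apply hsep (Sum.inr v) rfl t ht
            exact RIn.head hy (by simpa using hvS) (RIn.head hDw (by simpa using hwS) hr)
    · obtain ⟨u, hu, hmu⟩ := hGclosed v hvG
      have := out_Q hpm hP hy
      exact ⟨u, Or.inl hu, this.trans hmu⟩
  -- (3)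
  have hGH : G ⊆ H := by
    rintro v ⟨hv, hvT, h⟩
    refine ⟨hv, hvT, ?_⟩
    rcases h with ⟨_, hvΦ⟩ | ⟨hQ, p, hp, hpΦ⟩
    · exact hK0.mono subset_rfl subset_rfl (by
        rw [Set.singleton_subset_iff]; exact hvΦ)
    · obtain ⟨h1, h2, h3⟩ := hmate p v hv hp
      have hpT : p ∉ T := fun h => hvT (hTmate v p h1 h2 h)
      obtain ⟨hpK, _, _, _⟩ := hunt p h1 hpT
      have hD := D_mate_Q hpm hv hQ
      rw [hp] at hD
      intro s hs x hx hr
      rw [Set.mem_singleton_iff] at hx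
      subst hx
      exact hK0 s hs (Sum.inr p) hpΦ (hr.tail hD (by simpa using hpK))
  -- (4)
  have hin : ∀ v ∈ H, ∀ x, F.D m x (Sum.inr v) → ∃ w, (w ∈ H ∨ w ∈ T) ∧ x = Sum.inr w := by
    rintro v ⟨hv, hvT, hsep⟩ x hx
    obtain ⟨hvK, _, hvK', _⟩ := hunt v hv hvT
    rcases x with e | w
    · exfalso
      obtain ⟨h1, h2⟩ := hx
      apply hsep (Sum.inl e) ⟨e, att_E h1, h2, rfl⟩ (Sum.inr v) rfl
      exact RIn.single (D := F.D m) ⟨h1, h2⟩ (by simpa using hvK' e h1) (by simpa using hvK)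
    · refine ⟨w, ?_, rfl⟩
      by_cases hwT : w ∈ T
      · exact Or.inr hwT
      · left
        have hwV : w ∈ F.V := by
          rcases (D_uni hx).1 with ⟨w', h1, h2⟩ | ⟨e, _, h2⟩
          · rwa [Sum.inr_injective h2]
          · exact absurd h2 (by simp)
        refine ⟨hwV, hwT, ?_⟩
        intro s hs z hz hr
        rw [Set.mem_singleton_iff] at hz
        subst hz
        exact hsep s hs (Sum.inr v) rfl (hr.tail hx (by simpa using hvK))
  -- (5)
  have harc := hNf (2 * k1 b) M B R F m col hmin T G H hTc hGH (fun v hv => ⟨hv.1, hv.2.1⟩) hout hin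
  set Ar : Set (ℕ × ℕ) := {p : ℕ × ℕ | F.adj p.1 p.2 ∧ m p.1 ≠ Sum.inr p.2 ∧ p.1 ∈ H ∧
    p.1 ∉ G ∧ p.2 ∈ G} with hAr
  have hArf : Ar.Finite := by
    apply Set.Finite.subset ((F.V ×ˢ F.V).finite_toSet)
    intro p hp
    rw [Finset.mem_coe, Finset.mem_product]
    exact ⟨adj_left hp.1, adj_right hp.1⟩
  set T' : Finset ℕ := T ∪ hArf.toFinset.image Prod.fst with hT'
  have hT'c : T'.card ≤ 2 * k1 b + Nf (2 * k1 b) := by
    calc T'.card ≤ T.card + (hArf.toFinset.image Prod.fst).card := Finset.card_union_le _ _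
      _ ≤ 2 * k1 b + hArf.toFinset.card := Nat.add_le_add hTc Finset.card_image_le
      _ = 2 * k1 b + Ar.ncard := by rw [Set.ncard_eq_toFinset_card _ hArf]
      _ ≤ _ := Nat.add_le_add_left harc _
  -- (6)
  have hGf : G.Finite := F.V.finite_toSet.subset (fun v hv => hv.1)
  set R0 : Finset ℕ := hGf.toFinset with hR0
  have hR0mem : ∀ v, v ∈ R0 ↔ v ∈ G := fun v => Set.Finite.mem_toFinset _
  have hRRb := hgf (2 * k1 b + Nf (2 * k1 b)) M B R F m col hmin R0 T'
    (by
      intro v hv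
      rw [hR0mem] at hv
      exact hv.1)
    (by
      intro e v hatt hv
      rw [hR0mem] at hv
      obtain ⟨u, hu, hmu⟩ := hGclosed v hv
      have hne : m v ≠ Sum.inl e := by rw [hmu]; simp
      by_cases hP : F.isP v
      · have hbase : e ∈ F.base m := (mem_base_iff hatt).2 ⟨fun _ => hne, fun _ => hP⟩
        obtain ⟨w, _, hw⟩ := hout v hv (Sum.inl e) ⟨hatt, hbase⟩
        exact absurd hw (by simp)
      · have hnb : e ∉ F.base m := fun h => hP (((mem_base_iff hatt).1 h).2 hne)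
        obtain ⟨w, _, hw⟩ := hin v (hGH hv) (Sum.inl e) ⟨hatt, hnb⟩
        exact absurd hw (by simp))
    (by
      intro v hv
      rw [hR0mem] at hv
      obtain ⟨u, hu, hmu⟩ := hGclosed v hv
      exact ⟨u, (hR0mem u).2 hu, hmu⟩)
    hT'c
    (by
      intro v hv u hadj
      rw [hR0mem] at hv
      rcases hadj with hadj | hadj
      · by_cases hmu : m u = Sum.inr v
        · obtain ⟨w, hw, hmw⟩ := hGclosed v hv
          have h1 : m v = Sum.inr u := (hmate v u (adj_left hadj) hmu).2.1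
          have : w = u := Sum.inr_injective (hmw.symm.trans h1)
          left
          rw [hR0mem, ← this]
          exact hw
        · obtain ⟨w, hw, hwu⟩ := hin v (hGH hv) (Sum.inr u) (Or.inl ⟨hadj, hmu⟩)
          have : u = w := Sum.inr_injective hwu
          subst this
          rcases hw with hw | hw
          · by_cases huG : u ∈ G
            · left
              rw [hR0mem]
              exact huG
            · right
              apply Finset.mem_union_right
              refine Finset.mem_image.2 ⟨(u, v), ?_, rfl⟩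
              rw [Set.Finite.mem_toFinset]
              exact ⟨hadj, hmu, hw, huG, hv⟩
          · exact Or.inr (Finset.mem_union_left _ hw)
      · by_cases hmv : m v = Sum.inr u
        · obtain ⟨w, hw, hmw⟩ := hGclosed v hv
          have : w = u := Sum.inr_injective (hmw.symm.trans hmv)
          left
          rw [hR0mem, ← this]
          exact hw
        · obtain ⟨w, hw, hwu⟩ := hout v hv (Sum.inr u) (Or.inl ⟨hadj, hmv⟩)
          have : u = w := Sum.inr_injective hwu
          subst this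
          rcases hw with hw | hw
          · left
            rw [hR0mem]
            exact hw
          · exact Or.inr (Finset.mem_union_left _ hw))
  -- (7)
  have hXsub : X ⊆ T ∪ R0 := by
    intro x hx
    by_cases hxT : x ∈ T
    · exact Finset.mem_union_left _ hxT
    · apply Finset.mem_union_right
      rw [hR0mem]
      obtain ⟨hxV, hxP⟩ := hX x hx
      refine ⟨hxV, hxT, Or.inl ⟨hxP, ?_⟩⟩
      apply f1 x hxV hxT hxP
      exact hSm.mono subset_rfl (by
        rw [Set.singleton_subset_iff]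
        exact ⟨x, hx, rfl⟩) subset_rfl
  calc X.card ≤ (T ∪ R0).card := Finset.card_le_card hXsub
    _ ≤ T.card + R0.card := Finset.card_union_le _ _
    _ ≤ 2 * k1 b + gf (2 * k1 b + Nf (2 * k1 b)) := Nat.add_le_add hTc hRRb

end Pool.Agent.H62.GW
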