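import Pool.Agent.H55.GW.Targets3

/-! Modules LEX and RCD (MP_97b7aa_co). -/

set_option autoImplicit false

namespace Pool.Agent.H62.GW

open Pool.Agent.H55.GW

/-- LEX -/
theorem lex : T_LEX := by
  intro c hc j hj x y h
  constructor
  · intro hx
    refine h.induct (p := fun z => z ∈ c.O j) hx ?_
    intro u v hu hv huv hpu
    by_contra hcon
    rcases hc.cover j hj u v huv hpu hcon with ⟨ξ, hξ, h1⟩ | ⟨a, h1⟩
    · rcases h1 with h1 | h1
      · exact hu.1 ξ hξ h1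
      · exact hv.1 ξ hξ h1
    · rcases h1 with ⟨-, h1⟩ | ⟨-, h1⟩
      · exact hu.2 a h1
      · exact hv.2 a h1
  · intro hy
    refine h.rev.induct (p := fun z => z ∈ c.O j) hy ?_
    intro u v _ _ huv hpu
    exact hc.inc j hj v u huv hpu

/-- RCD -/
theorem rcd : T_RCD := by
  intro c hc
  have hpm := hc.pm
  have hmu : ∀ v ∈ c.F.V, c.m v ∈ c.F.uni := by
    intro v hv
    rcases hpm.cases hv with ⟨e, h1, h2⟩ | ⟨u, h1, h2, -⟩
    · rw [h1]; exact Or.inr ⟨e, Frame.att_E h2, rfl⟩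
    · rw [h1]; exact Or.inl ⟨u, h2, rfl⟩
  refine ⟨?_, ?_, ?_, ?_, ?_, ?_, ?_, ?_, ?_, ?_, ?_, ?_, ?_⟩
  · exact Frame.dual_isPM.2 hpm
  · intro i _ x hx
    exact hx.1
  · intro i j hij hj x hx
    exact ⟨hx.1, fun h => hx.2 (hc.mono _ _ (Nat.sub_le_sub_left hij c.T) (Nat.sub_le _ _) h)⟩
  · intro i hi x y hxy hy
    have hD : c.F.D c.m y x := (Frame.dual_D hpm).1 hxy
    refine ⟨(Frame.D_uni hD).2, fun h => hy.2 ?_⟩
    exact hc.inc _ (Nat.sub_le _ _) y x hD h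
  · intro i hi v hv
    have h1 := hc.hub (c.T - i) (Nat.sub_le _ _) v hv
    have h2 := hmu v hv
    have h3 : (Sum.inr v : Vx) ∈ c.F.uni := Or.inl ⟨v, hv, rfl⟩
    constructor
    · intro h
      exact ⟨h2, fun h' => h.2 (h1.2 h')⟩
    · intro h
      exact ⟨h3, fun h' => h.2 (h1.1 h')⟩
  · intro ξ hξ
    obtain ⟨h1, h2⟩ := hc.xiV ξ hξ
    refine ⟨h1, ?_⟩
    rcases h2 with h2 | h2
    · right
      intro h
      have h3 := h.2
      have h4 : c.T - c.dual.T = 0 := Nat.sub_self _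
      rw [h4] at h3
      exact h3 h2
    · left
      exact ⟨Or.inl ⟨ξ, h1, rfl⟩, h2⟩
  · intro i _ a
    exact hc.sV _ (Nat.sub_le _ _) a
  · intro i hi a hty
    have hi' : i ≤ c.T := hi
    have hty' : c.ty a = false := by
      have : (!(c.ty a)) = true := hty
      simpa using this
    obtain ⟨h1, h2, h3⟩ := hc.sI (c.T - i) (Nat.sub_le _ _) a hty'
    have hV := (hc.sV (c.T - i) (Nat.sub_le _ _) a).1
    refine ⟨h1, ⟨Or.inl ⟨_, hV, rfl⟩, h2⟩, ?_⟩
    intro j hj hcon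
    exact hcon.2 (h3 (c.T - j) (by omega) (Nat.sub_le _ _))
  · intro i hi a hty
    have hi' : i ≤ c.T := hi
    have hty' : c.ty a = true := by
      have : (!(c.ty a)) = false := hty
      simpa using this
    obtain ⟨h1, h2, h3⟩ := hc.sO (c.T - i) (Nat.sub_le _ _) a hty'
    have hV := (hc.sV (c.T - i) (Nat.sub_le _ _) a).1
    refine ⟨fun h => h h1, fun h => h.2 h2, ?_⟩
    intro j hij hj
    have hj' : j ≤ c.T := hj
    exact ⟨Or.inl ⟨_, hV, rfl⟩, h3 (c.T - j) (by omega)⟩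
  · intro i hi x y hxy hx hy
    have hD : c.F.D c.m y x := (Frame.dual_D hpm).1 hxy
    have hy' : y ∈ c.O (c.T - i) := by
      by_contra hcon
      exact hy ⟨(Frame.D_uni hD).1, hcon⟩
    rcases hc.cover (c.T - i) (Nat.sub_le _ _) y x hD hy' hx.2 with ⟨ξ, hξ, h1⟩ | ⟨a, h1⟩
    · exact Or.inl ⟨ξ, hξ, h1.symm⟩
    · right
      refine ⟨a, ?_⟩
      rcases h1 with ⟨h1, h2⟩ | ⟨h1, h2⟩
      · right
        exact ⟨by show (!(c.ty a)) = false; rw [h1]; rfl, h2⟩
      · left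
        exact ⟨by show (!(c.ty a)) = true; rw [h1]; rfl, h2⟩
  · intro i hi a
    have hi' : i < c.T := hi
    obtain ⟨j, hj1, hj2⟩ : ∃ j, c.T - (i + 1) = j ∧ c.T - i = j + 1 := ⟨c.T - (i + 1), rfl, by omega⟩
    have h1 := hc.seg j (by omega) a
    refine (Frame.dual_rIn hpm).2 ?_
    have e1 : c.dual.s (i + 1) a = c.s j a := by show c.s (c.T - (i + 1)) a = _; rw [hj1]
    have e2 : c.dual.s i a = c.s (j + 1) a := by show c.s (c.T - i) a = _; rw [hj2]
    rw [e1, e2]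
    refine h1.mono_set ?_
    rintro x ⟨hx1, hx2⟩
    refine ⟨hx1, ?_⟩
    rcases hx2 with hx2 | hx2 | hx2
    · left
      refine ⟨⟨hc.sub (j + 1) (by omega) hx2.1, ?_⟩, ?_⟩
      · rw [hj1]; exact hx2.2
      · intro h
        have := h.2
        rw [hj2] at this
        exact this hx2.1
    · right; right; exact hx2
    · right; left; exact hx2
  · intro a
    obtain ⟨x, hx, y, hy, h⟩ := hc.tr a
    refine ⟨y, ⟨?_, ?_, ?_⟩, x, ⟨?_, ?_⟩, ?_⟩
    · show y ∈ c.F.dual.src c.m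
      rw [Frame.dual_src]; exact hy.1
    · obtain ⟨e, he, rfl⟩ := hy.1
      exact Or.inr ⟨e, by simpa using Frame.base_subset he, rfl⟩
    · exact hy.2
    · show x ∈ c.F.dual.snk c.m
      rw [Frame.dual_snk]; exact hx.1
    · intro h'
      have h3 := h'.2
      have h4 : c.T - c.dual.T = 0 := Nat.sub_self _
      rw [h4] at h3
      exact h3 hx.2
    · intro z hz
      obtain ⟨h1, h2⟩ := h z hz
      exact ⟨(Frame.dual_rIn hpm).2 h2, (Frame.dual_rIn hpm).2 h1⟩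
  · exact hc.dTr

end Pool.Agent.H62.GW
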