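import Pool.Agent.H55.GW.Targets3

/-! Module XI (MP_97b7aa_co). -/

set_option autoImplicit false

namespace Pool.Agent.H62.GW

open Pool.Agent.H55.GW

theorem card_mate (m : ℕ → Vx) (V U : Finset ℕ) (p : ℕ → Prop) [DecidablePred p]
    (hp : ∀ u, p u → ∃ v ∈ U, m v = Sum.inr u) : (V.filter p).card ≤ U.card := by
  classical
  have h : V.filter p ⊆ U.image (fun v => Sum.elim id id (m v)) := by
    intro u hu
    obtain ⟨v, hv, hm⟩ := hp u (Finset.mem_filter.1 hu).2
    exact Finset.mem_image.2 ⟨v, hv, by rw [hm]; rfl⟩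
  exact (Finset.card_le_card h).trans Finset.card_image_le

theorem card_one {k : ℕ} (g : Fin k → Vx) (V : Finset ℕ) (p : ℕ → Prop) [DecidablePred p]
    (hp : ∀ u, p u → ∃ c, (Sum.inr u : Vx) = g c) : (V.filter p).card ≤ k := by
  classical
  have h : V.filter p ⊆ (Finset.univ : Finset (Fin k)).image (fun c => Sum.elim id id (g c)) := by
    intro u hu
    obtain ⟨c, hm⟩ := hp u (Finset.mem_filter.1 hu).2
    exact Finset.mem_image.2 ⟨c, Finset.mem_univ _, by rw [← hm]; rfl⟩
  exact ((Finset.card_le_card h).trans Finset.card_image_le).trans (by simp)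

/-- XI -/
theorem xi (h1 : T_XU) (h2 : T_XW) : T_XI := by
  classical
  intro q hq φ hφ k
  obtain ⟨KU, hKU⟩ := h1 q hq φ hφ k
  obtain ⟨KW, hKW⟩ := h2 q hq φ hφ k
  refine ⟨2 * KU + 2 * KW + k, ?_⟩
  intro M F m N O len r pz hG hR hE hFe hFan hCo hC hZ
  have hpm := hC.pm
  have hrails : Rails (F.D m) k len r (F.src m) (F.snk m) :=
    ⟨fun c => (hC.rails.start c).1, fun c => (hC.rails.fin c).1, hC.rails.arc, hC.rails.inj⟩
  -- the vertices of the cuts have in-arcs and out-arcs
  have Zin : ∀ i ≤ N, ∀ z ∈ Zs r (pz i), ∃ w, F.D m w z := by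
    rintro i hi z ⟨c, rfl⟩
    have h3 := hZ.rng i hi c
    refine ⟨r c (pz i c - 1), ?_⟩
    have h4 := hrails.arc c (pz i c - 1) (by omega)
    have h5 : pz i c - 1 + 1 = pz i c := by omega
    rwa [h5] at h4
  have Zout : ∀ i ≤ N, ∀ z ∈ Zs r (pz i), ∃ w, F.D m z w := by
    rintro i hi z ⟨c, rfl⟩
    exact ⟨_, hrails.arc c (pz i c) (hZ.rng i hi c).2⟩
  have srcZ : ∀ i ≤ N, ∀ e, e ∉ F.base m → (Sum.inl e : Vx) ∉ Zs r (pz i) := by
    intro i hi e he hz
    obtain ⟨w, hw⟩ := Zin i hi _ hz
    exact Frame.no_in_src he w hw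
  have snkZ : ∀ i ≤ N, ∀ e, e ∈ F.base m → (Sum.inl e : Vx) ∉ Zs r (pz i) := by
    intro i hi e he hz
    obtain ⟨w, hw⟩ := Zout i hi _ hz
    exact Frame.no_out_snk he w hw
  set U : Finset ℕ := F.V.filter (fun v => ¬ F.isP v ∧ ∃ i ≤ N, Sum.inr v ∉ Zs r (pz i) ∧
    Sep (F.D m) (Zs r (pz i)) (F.src m) {Sum.inr v}) with hU
  set Wf : Finset ℕ := F.V.filter (fun v => F.isP v ∧ ∃ i ≤ N, Sum.inr v ∉ Zs r (pz i) ∧
    Sep (F.D m) (Zs r (pz i)) {Sum.inr v} (F.snk m)) with hW
  set U2 : Finset ℕ := F.V.filter (fun u => ∃ v ∈ U, m v = Sum.inr u) with hU2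
  set W2 : Finset ℕ := F.V.filter (fun u => ∃ v ∈ Wf, m v = Sum.inr u) with hW2
  set R1 : Finset ℕ := F.V.filter (fun u => ∃ c, (Sum.inr u : Vx) = r c 1) with hR1
  have cU : U.card ≤ KU := by
    refine hKU M F m hG hR hpm hE hFe hCo len r hrails N pz hZ.rng hZ.mono U ?_
    intro v hv
    have := Finset.mem_filter.1 hv
    exact ⟨this.1, this.2.1, this.2.2⟩
  have cW : Wf.card ≤ KW := by
    refine hKW M F m hG hR hpm hE hFe hFan len r hrails N pz hZ.rng hZ.mono Wf ?_
    intro v hv
    have := Finset.mem_filter.1 hv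
    exact ⟨this.1, this.2.1, this.2.2⟩
  have cU2 : U2.card ≤ U.card := card_mate m F.V U _ (fun _ h => h)
  have cW2 : W2.card ≤ Wf.card := card_mate m F.V Wf _ (fun _ h => h)
  have cR1 : R1.card ≤ k := card_one (fun c => r c 1) F.V _ (fun _ h => h)
  refine ⟨U ∪ (U2 ∪ (Wf ∪ (W2 ∪ R1))), ?_, ?_, ?_, ?_, ?_⟩
  · have e1 := Finset.card_union_le U (U2 ∪ (Wf ∪ (W2 ∪ R1)))
    have e2 := Finset.card_union_le U2 (Wf ∪ (W2 ∪ R1))
    have e3 := Finset.card_union_le Wf (W2 ∪ R1)
    have e4 := Finset.card_union_le W2 R1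
    omega
  · intro v hv
    simp only [Finset.mem_union] at hv
    rcases hv with hv | hv | hv | hv | hv
    all_goals exact (Finset.mem_filter.1 hv).1
  · intro i hi v hv hP hz hs
    exact Finset.mem_union_left _ (Finset.mem_filter.2 ⟨hv, hP, i, hi, hz, hs⟩)
  · intro i hi v hv hP hz hs
    exact Finset.mem_union_right _ (Finset.mem_union_right _ (Finset.mem_union_left _
      (Finset.mem_filter.2 ⟨hv, hP, i, hi, hz, hs⟩)))
  · intro i hi x y hxy hx hy
    by_cases hA : ∃ s ∈ F.src m, RIn (F.D m) (Zs r (pz i))ᶜ s x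
    · by_cases hB : ∃ t ∈ F.snk m, RIn (F.D m) (Zs r (pz i))ᶜ y t
      · exfalso
        obtain ⟨s, hs, hsx⟩ := hA
        obtain ⟨t, ht, hyt⟩ := hB
        have hsO : s ∈ O i := hsx.rev.induct (p := fun z => z ∈ O i) hx
          (fun u v _ _ huv hpu => hC.inc i hi v u huv hpu)
        have htO : t ∉ O i := fun hcon => hy (hyt.rev.induct (p := fun z => z ∈ O i) hcon
          (fun u v _ _ huv hpu => hC.inc i hi v u huv hpu))
        exact hZ.sep i hi s ⟨hs, hsO⟩ t ⟨ht, htO⟩
          ((hsx.tail hxy hyt.left_mem).trans hyt)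
      · -- Case 2
        rcases y with e | w
        · exfalso
          by_cases he : e ∈ F.base m
          · exact hB ⟨Sum.inl e, ⟨e, he, rfl⟩, RIn.refl (snkZ i hi e he)⟩
          · exact Frame.no_in_src he x hxy
        have hwV : w ∈ F.V := by
          rcases (Frame.D_uni hxy).2 with ⟨v, hv, he⟩ | ⟨e, -, he⟩
          · rw [Sum.inr.inj he]; exact hv
          · exact absurd he (by simp)
        have hnP : ¬ F.isP w := by
          intro hP
          have h5 := Frame.in_P hpm hP hxy
          rw [h5] at hx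
          exact hy ((hC.hub i hi w hwV).2 hx)
        by_cases hwZ : (Sum.inr w : Vx) ∈ Zs r (pz i)
        · obtain ⟨c, hc⟩ := hwZ
          exact Or.inr ⟨c, w, hc.symm, hnP, Or.inr rfl⟩
        have hDw := Frame.D_mate_Q hpm hwV hnP
        rcases hpm.cases hwV with ⟨e, he, h6⟩ | ⟨u, hu, h6, h7, h8, -⟩
        · exfalso
          rw [he] at hDw
          refine hB ⟨Sum.inl e, ⟨e, hDw.2, rfl⟩, ?_⟩
          exact RIn.single hDw hwZ (snkZ i hi e hDw.2)
        · rw [hu] at hDw
          have hPu : F.isP u := by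
            by_contra hcon
            exact hnP (h8.2 hcon)
          by_cases huZ : (Sum.inr u : Vx) ∈ Zs r (pz i)
          · exfalso
            obtain ⟨c, hc⟩ := huZ
            have h9 := hZ.cls i hi c u hc.symm hPu
            rw [h9] at hc
            have h10 := hrails.arc c 0 (by have := hZ.rng i hi c; omega)
            rw [zero_add, ← hc] at h10
            have h11 := Frame.in_P hpm hPu h10
            rw [h7] at h11
            obtain ⟨e, -, -, he⟩ := hrails.start c
            rw [h11] at he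
            exact absurd he (by simp)
          · have huW : u ∈ Wf := by
              refine Finset.mem_filter.2 ⟨h6, hPu, i, hi, huZ, ?_⟩
              intro x' hx' t ht hr
              have : x' = Sum.inr u := hx'
              subst this
              exact hB ⟨t, ht, hr.head hDw hwZ⟩
            left
            refine ⟨w, ?_, Or.inr rfl⟩
            refine Finset.mem_union_right _ (Finset.mem_union_right _ (Finset.mem_union_right _
              (Finset.mem_union_left _ (Finset.mem_filter.2 ⟨hwV, u, huW, h7⟩))))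
    · -- Case 1
      rcases x with e | v
      · exfalso
        by_cases he : e ∈ F.base m
        · exact Frame.no_out_snk he y hxy
        · have heE : e ∈ F.E := by
            rcases (Frame.D_uni hxy).1 with ⟨v, -, h⟩ | ⟨e', h, h'⟩
            · exact absurd h (by simp)
            · rw [Sum.inl.inj h']; exact h
          exact hA ⟨Sum.inl e, ⟨e, heE, he, rfl⟩, RIn.refl (srcZ i hi e he)⟩
      have hvV : v ∈ F.V := by
        rcases (Frame.D_uni hxy).1 with ⟨v', hv, he⟩ | ⟨e, -, he⟩
        · rw [Sum.inr.inj he]; exact hv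
        · exact absurd he (by simp)
      have hP : F.isP v := by
        by_contra hP
        have h5 := Frame.out_Q hpm hP hxy
        rw [h5] at hy
        exact hy ((hC.hub i hi v hvV).1 hx)
      by_cases hvZ : (Sum.inr v : Vx) ∈ Zs r (pz i)
      · obtain ⟨c, hc⟩ := hvZ
        have h9 := hZ.cls i hi c v hc.symm hP
        rw [h9] at hc
        left
        refine ⟨v, ?_, Or.inl rfl⟩
        exact Finset.mem_union_right _ (Finset.mem_union_right _ (Finset.mem_union_right _
          (Finset.mem_union_right _ (Finset.mem_filter.2 ⟨hvV, c, hc⟩))))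
      have hDv := Frame.D_mate_P hpm hvV hP
      rcases hpm.cases hvV with ⟨e, he, h6⟩ | ⟨u, hu, h6, h7, h8, -⟩
      · exfalso
        rw [he] at hDv
        refine hA ⟨Sum.inl e, ⟨e, Frame.att_E h6, hDv.2, rfl⟩, ?_⟩
        exact RIn.single hDv (srcZ i hi e hDv.2) hvZ
      · rw [hu] at hDv
        have hnPu : ¬ F.isP u := h8.1 hP
        by_cases huZ : (Sum.inr u : Vx) ∈ Zs r (pz i)
        · obtain ⟨c, hc⟩ := huZ
          exact Or.inr ⟨c, u, hc.symm, hnPu, Or.inl h7.symm⟩
        · have huU : u ∈ U := by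
            refine Finset.mem_filter.2 ⟨h6, hnPu, i, hi, huZ, ?_⟩
            intro s hs x' hx' hr
            have : x' = Sum.inr u := hx'
            subst this
            exact hA ⟨s, hs, hr.tail hDv hvZ⟩
          left
          refine ⟨v, ?_, Or.inl rfl⟩
          exact Finset.mem_union_right _ (Finset.mem_union_left _
            (Finset.mem_filter.2 ⟨hvV, u, huU, h7⟩))

end Pool.Agent.H62.GW
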