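import Pool.Agent.H55.GW.Targets3

/-! Modules RLS and ZC (MP_97b7aa_co). -/

set_option autoImplicit false

namespace Pool.Agent.H62.GW

open Pool.Agent.H55.GW

/-- RLS -/
theorem rls : T_RLS := by
  intro D k A B h
  obtain ⟨x, y, S, h1, h2⟩ := h
  have h3 : ∀ i, ∃ l, IsPath D l (x i) (y i) ∧ ∀ v ∈ l, v ∈ S i := fun i => (h1 i).2.2.exists_path
  choose l hl hlS using h3
  have hlen : ∀ c, 0 < (l c).length := fun c => List.length_pos_of_mem (hl c).mem_left
  have hget : ∀ c p (hp : p < (l c).length), (l c).getD p (x c) = (l c)[p] := by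
    intro c p hp
    rw [List.getD_eq_getElem _ _ hp]
  refine ⟨fun c => (l c).length - 1, fun c p => (l c).getD p (x c), ?_, ?_, ?_, ?_⟩
  · intro c
    have h4 : (l c)[0]'(hlen c) = x c := by
      have h5 := (hl c).2.2.1
      rw [List.head?_eq_getElem?, List.getElem?_eq_getElem (hlen c)] at h5
      exact Option.some.inj h5
    show (l c).getD 0 (x c) ∈ A
    rw [hget c 0 (hlen c), h4]
    exact (h1 c).1
  · intro c
    have h6 : (l c).length - 1 < (l c).length := by have := hlen c; omega
    have h4 : (l c)[(l c).length - 1]'h6 = y c := by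
      have h5 := (hl c).2.2.2
      rw [List.getLast?_eq_getElem?, List.getElem?_eq_getElem h6] at h5
      exact Option.some.inj h5
    show (l c).getD ((l c).length - 1) (x c) ∈ B
    rw [hget c _ h6, h4]
    exact (h1 c).2.1
  · intro c p hp
    have hp' : p + 1 < (l c).length := by omega
    show D ((l c).getD p (x c)) ((l c).getD (p + 1) (x c))
    rw [hget c p (by omega), hget c (p + 1) hp']
    exact (List.isChain_iff_getElem.1 (hl c).1) p hp'
  · intro c p c' p' hp hp' he
    have q1 : p < (l c).length := by have := hlen c; omega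
    have q2 : p' < (l c').length := by have := hlen c'; omega
    have he' : (l c).getD p (x c) = (l c').getD p' (x c') := he
    rw [hget c p q1, hget c' p' q2] at he'
    have hcc : c = c' := by
      by_contra hne
      refine Set.disjoint_left.1 (h2 c c' hne) (hlS c _ (List.getElem_mem q1)) ?_
      rw [he']
      exact hlS c' _ (List.getElem_mem q2)
    subst hcc
    exact ⟨rfl, ((hl c).2.1.getElem_inj_iff).1 he'⟩

/-- ZC -/
theorem zc (h1 : T_ZCM) (h2 : T_ZCE) : T_ZC := by
  intro F m N O k len r hC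
  have h3 : ∀ i, ∃ p : Fin k → ℕ, i ≤ N → ((∀ c, 1 ≤ p c ∧ p c < len c) ∧
      Sep (F.D m) (Zs r p) (F.src m ∩ O i) (F.snk m \ O i)) ∧
      ∀ p' : Fin k → ℕ, (∀ c, 1 ≤ p' c ∧ p' c < len c) →
        Sep (F.D m) (Zs r p') (F.src m ∩ O i) (F.snk m \ O i) → ∑ c, p c ≤ ∑ c, p' c := by
    intro i
    by_cases hi : i ≤ N
    · obtain ⟨p0, hp0⟩ := h2 F m N O k len r hC i hi
      obtain ⟨p, hp, hmin⟩ := WellFounded.has_min
        (measure (fun p : Fin k → ℕ => ∑ c, p c)).wf
        {p | (∀ c, 1 ≤ p c ∧ p c < len c) ∧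
          Sep (F.D m) (Zs r p) (F.src m ∩ O i) (F.snk m \ O i)} ⟨p0, hp0⟩
      refine ⟨p, fun _ => ⟨hp, ?_⟩⟩
      intro p' h4 h5
      exact not_lt.1 (hmin p' ⟨h4, h5⟩)
    · exact ⟨fun _ => 0, fun h => absurd h hi⟩
  choose pz hpz using h3
  refine ⟨pz, ?_, ?_, ?_, ?_⟩
  · intro i hi
    exact (hpz i hi).1.1
  · intro i j hij hj c
    have hi := hij.trans hj
    obtain ⟨⟨a1, a2⟩, a3⟩ := hpz i hi
    obtain ⟨⟨b1, b2⟩, -⟩ := hpz j hj
    have h4 := h1 F m N O k len r hC i j hij hj (pz i) (pz j) a1 b1 a2 b2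
    have h5 := a3 (fun c => min (pz i c) (pz j c)) (fun c => by
      have := a1 c; have := b1 c; omega) h4
    by_contra hcon
    push Not at hcon
    have h6 : ∑ c, min (pz i c) (pz j c) < ∑ c, pz i c :=
      Finset.sum_lt_sum (fun c _ => min_le_left _ _) ⟨c, Finset.mem_univ _, by omega⟩
    omega
  · intro i hi
    exact (hpz i hi).1.2
  · intro i hi c v hv hP
    obtain ⟨⟨a1, a2⟩, a3⟩ := hpz i hi
    by_contra hne
    have hge : 2 ≤ pz i c := by have := (a1 c).1; omega
    set p' : Fin k → ℕ := Function.update (pz i) c (pz i c - 1) with hp'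
    have hpc : p' c = pz i c - 1 := by rw [hp', Function.update_self]
    have hpo : ∀ d, d ≠ c → p' d = pz i d := fun d hd => by rw [hp', Function.update_of_ne hd]
    have b1 : ∀ d, 1 ≤ p' d ∧ p' d < len d := by
      intro d
      by_cases hd : d = c
      · subst hd
        rw [hpc]
        have := a1 d
        omega
      · rw [hpo d hd]; exact a1 d
    have hprev : r c (p' c) = m v := by
      have h4 := hC.rails.arc c (pz i c - 1) (by have := (a1 c).2; omega)
      have h5 : pz i c - 1 + 1 = pz i c := by omega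
      rw [h5, hv] at h4
      rw [hpc]
      exact Frame.in_P hC.pm hP h4
    have b2 : Sep (F.D m) (Zs r p') (F.src m ∩ O i) (F.snk m \ O i) := by
      intro x hx y hy hw
      rcases hw.avoid_or {Sum.inr v} with h4 | ⟨z, hz, h4, -⟩
      · refine a2 x hx y hy (h4.mono_set ?_)
        rintro z ⟨hz1, hz2⟩ ⟨d, hd⟩
        by_cases hdc : d = c
        · subst hdc
          rw [hv] at hd
          exact hz2 hd
        · exact hz1 ⟨d, by rw [hpo d hdc]; exact hd⟩
      · have hzv : z = Sum.inr v := hz
        subst hzv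
        rcases h4.cases_tail with h5 | ⟨w, h5, h6⟩
        · obtain ⟨e, -, -, he⟩ := hx.1
          rw [he] at h5
          exact absurd h5 (by simp)
        · have h7 := Frame.in_P hC.pm hP h6
          have h8 := h5.right_mem
          rcases h8 with h8 | h8
          · exact h8.1 ⟨c, by rw [hprev, h7]⟩
          · rw [h8] at h6
            exact Frame.D_asymm hC.pm h6 h6
    have h9 := a3 p' b1 b2
    have h10 : ∑ d, p' d < ∑ d, pz i d :=
      Finset.sum_lt_sum (fun d _ => by
        by_cases hd : d = c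
        · subst hd; rw [hpc]; omega
        · rw [hpo d hd]) ⟨c, Finset.mem_univ _, by rw [hpc]; omega⟩
    omega

end Pool.Agent.H62.GW
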